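import Mathlib

/-!
# The global flow of a bounded Lipschitz vector field
-/

open Set Filter Topology Metric
open scoped NNReal

namespace Q85.PA

section

variable {E : Type*} [NormedAddCommGroup E] [NormedSpace ℝ E] {f : E → E} {K : ℝ≥0}

theorem ode_uniq (hf : LipschitzWith K f) {x y : ℝ → E} {t₀ : ℝ}
    (hx : ∀ t, HasDerivAt x (f (x t)) t) (hy : ∀ t, HasDerivAt y (f (y t)) t) (h : x t₀ = y t₀) :
    x = y :=
  ODE_solution_unique_univ (v := fun _ => f) (s := fun _ => univ) (K := K)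
    (fun _ => hf.lipschitzOnWith) (fun t => ⟨hx t, trivial⟩) (fun t => ⟨hy t, trivial⟩) h

theorem ode_dist_pos (hf : LipschitzWith K f) {x y : ℝ → E}
    (hx : ∀ t, HasDerivAt x (f (x t)) t) (hy : ∀ t, HasDerivAt y (f (y t)) t) {t : ℝ}
    (ht : 0 ≤ t) : dist (x t) (y t) ≤ dist (x 0) (y 0) * Real.exp (K * t) := by
  have h := dist_le_of_trajectories_ODE (v := fun _ => f) (K := K) (a := 0) (b := t)
    (δ := dist (x 0) (y 0)) (fun _ => hf)
    (fun s _ => (hx s).continuousAt.continuousWithinAt) (fun s _ => (hx s).hasDerivWithinAt)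
    (fun s _ => (hy s).continuousAt.continuousWithinAt) (fun s _ => (hy s).hasDerivWithinAt)
    le_rfl t ⟨ht, le_rfl⟩
  simpa using h

theorem ode_rev {x : ℝ → E} (hx : ∀ t, HasDerivAt x (f (x t)) t) (t : ℝ) :
    HasDerivAt (fun s => x (-s)) ((fun z => -f z) (x (-t))) t := by
  have h1 := (hx (-t)).scomp t (hasDerivAt_neg t)
  simpa [Function.comp_def] using h1

theorem ode_dist (hf : LipschitzWith K f) {x y : ℝ → E}
    (hx : ∀ t, HasDerivAt x (f (x t)) t) (hy : ∀ t, HasDerivAt y (f (y t)) t) (t : ℝ) :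
    dist (x t) (y t) ≤ dist (x 0) (y 0) * Real.exp (K * |t|) := by
  rcases le_total 0 t with ht | ht
  · rw [abs_of_nonneg ht]
    exact ode_dist_pos hf hx hy ht
  · rw [abs_of_nonpos ht]
    have hf' : LipschitzWith K fun z => -f z := hf.neg
    have h := ode_dist_pos hf' (ode_rev hx) (ode_rev hy) (t := -t) (by linarith)
    simpa using h

theorem ode_exists [CompleteSpace E] (hf : LipschitzWith K f) {L : ℝ≥0} (hL : ∀ x, ‖f x‖ ≤ L)
    (x₀ : E) : ∃ x : ℝ → E, x 0 = x₀ ∧ ∀ t, HasDerivAt x (f (x t)) t := by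
  have h1 : ∀ n : ℕ, ∃ y : ℝ → E, y 0 = x₀ ∧
      ∀ t ∈ Icc (-((n:ℝ) + 1)) ((n:ℝ) + 1), HasDerivWithinAt y (f (y t))
        (Icc (-((n:ℝ) + 1)) ((n:ℝ) + 1)) t := by
    intro n
    have h0 : (0:ℝ) ∈ Icc (-((n:ℝ) + 1)) ((n:ℝ) + 1) := by
      constructor
      · have : (0:ℝ) ≤ n := Nat.cast_nonneg n
        linarith
      · positivity
    have hp : IsPicardLindelof (fun _ => f) (⟨0, h0⟩ : Icc (-((n:ℝ) + 1)) ((n:ℝ) + 1)) x₀
        (L * ((n : ℝ≥0) + 1)) 0 L K := by
      refine ⟨fun _ _ => hf.lipschitzOnWith, fun _ _ => continuousOn_const, fun _ _ x _ => hL x, ?_⟩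
      simp
    exact hp.exists_eq_forall_mem_Icc_hasDerivWithinAt₀
  choose y hy0 hy using h1
  have hy' : ∀ n : ℕ, ∀ t ∈ Ioo (-((n:ℝ) + 1)) ((n:ℝ) + 1), HasDerivAt (y n) (f (y n t)) t :=
    fun n t ht => (hy n t (Ioo_subset_Icc_self ht)).hasDerivAt (Icc_mem_nhds ht.1 ht.2)
  have hcomp : ∀ n m : ℕ, n ≤ m → EqOn (y n) (y m) (Ioo (-((n:ℝ) + 1)) ((n:ℝ) + 1)) := by
    intro n m hnm
    have hc : (n:ℝ) ≤ m := by exact_mod_cast hnm
    have hn : (0:ℝ) ≤ n := Nat.cast_nonneg n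
    refine ODE_solution_unique_of_mem_Ioo (v := fun _ => f) (s := fun _ => univ) (K := K) (t₀ := 0)
      (fun _ _ => hf.lipschitzOnWith) ⟨by linarith, by linarith⟩
      (fun t ht => ⟨hy' n t ht, trivial⟩) (fun t ht => ⟨hy' m t ?_, trivial⟩) ?_
    · exact ⟨by linarith [ht.1], by linarith [ht.2]⟩
    · rw [hy0, hy0]
  let N : ℝ → ℕ := fun t => ⌈|t|⌉₊
  have hN : ∀ t, t ∈ Ioo (-((N t : ℝ) + 1)) ((N t : ℝ) + 1) := by
    intro t
    have h1 : |t| ≤ N t := Nat.le_ceil _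
    have h2 := abs_le.1 h1
    exact ⟨by linarith [h2.1], by linarith [h2.2]⟩
  have heq : ∀ (n : ℕ) (t : ℝ), t ∈ Ioo (-((n:ℝ) + 1)) ((n:ℝ) + 1) → y (N t) t = y n t := by
    intro n t ht
    rcases le_total (N t) n with h | h
    · exact hcomp _ _ h (hN t)
    · exact (hcomp _ _ h ht).symm
  refine ⟨fun t => y (N t) t, ?_, fun t => ?_⟩
  · exact hy0 _
  · have h2 : (fun t => y (N t) t) =ᶠ[𝓝 t] y (N t) := by
      filter_upwards [isOpen_Ioo.mem_nhds (hN t)] with s hs
      exact heq _ _ hs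
    exact (hy' _ t (hN t)).congr_of_eventuallyEq h2

/-- A bounded Lipschitz vector field generates a flow. -/
theorem exists_flow [CompleteSpace E] (hf : LipschitzWith K f) {L : ℝ≥0} (hL : ∀ x, ‖f x‖ ≤ L) :
    ∃ Φ : Flow ℝ E, ∀ x t, HasDerivAt (fun s => Φ s x) (f (Φ t x)) t := by
  choose y hy0 hy using ode_exists hf hL
  have hlip : ∀ (x : E) (s t : ℝ), dist (y x s) (y x t) ≤ L * |s - t| := by
    intro x s t
    have h := Convex.norm_image_sub_le_of_norm_hasDerivWithin_le (f := y x) (f' := fun t => f (y x t))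
      (C := L) (s := univ) (fun t _ => (hy x t).hasDerivWithinAt) (fun t _ => hL _) convex_univ
      (mem_univ t) (mem_univ s)
    rw [dist_eq_norm, ← Real.norm_eq_abs]
    exact h
  refine ⟨⟨fun t x => y x t, ?_, ?_, ?_⟩, ?_⟩
  · rw [Metric.continuous_iff]
    rintro ⟨t, x⟩ ε hε
    have hC : 0 < Real.exp (K * |t|) := Real.exp_pos _
    refine ⟨min (ε / (2 * Real.exp (K * |t|))) (ε / (2 * (L + 1))), by positivity, ?_⟩
    rintro ⟨s, z⟩ hsz
    rw [Prod.dist_eq, max_lt_iff, lt_min_iff, lt_min_iff] at hsz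
    change dist (y z s) (y x t) < ε
    have h1 := ode_dist hf (hy z) (hy x) t
    rw [hy0, hy0] at h1
    have h2 := hlip z s t
    have h3 : dist s t < ε / (2 * (L + 1)) := hsz.1.2
    have h4 : dist z x < ε / (2 * Real.exp (K * |t|)) := hsz.2.1
    rw [Real.dist_eq] at h3
    have h5 : (L:ℝ) * |s - t| < ε / 2 := by
      have hL0 : (0:ℝ) ≤ L := L.2
      calc (L:ℝ) * |s - t| ≤ (L + 1) * |s - t| := by nlinarith [abs_nonneg (s - t)]
        _ < (L + 1) * (ε / (2 * (L + 1))) := mul_lt_mul_of_pos_left h3 (by positivity)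
        _ = ε / 2 := by field_simp
    have h6 : dist z x * Real.exp (K * |t|) < ε / 2 := by
      calc dist z x * Real.exp (K * |t|) < ε / (2 * Real.exp (K * |t|)) * Real.exp (K * |t|) :=
            mul_lt_mul_of_pos_right h4 hC
        _ = ε / 2 := by field_simp
    linarith [dist_triangle (y z s) (y z t) (y x t)]
  · intro s t x
    have h1 : ∀ u, HasDerivAt (fun u => y x (u + t)) (f (y x (u + t))) u := fun u =>
      (hy x (u + t)).comp_add_const u t
    have h2 := ode_uniq (t₀ := 0) hf h1 (hy (y x t)) (by rw [zero_add, hy0])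
    exact congrFun h2 s
  · exact fun x => hy0 x
  · exact fun x t => hy x t

end

/-- Descent of a flow to a quotient. -/
theorem flow_desc {V X : Type*} [TopologicalSpace V] [TopologicalSpace X] {p : V → X}
    (hp : IsOpenQuotientMap p) (Φ : Flow ℝ V)
    (h : ∀ (t : ℝ) (u w : V), p u = p w → p (Φ t u) = p (Φ t w)) :
    ∃ Ψ : Flow ℝ X, ∀ (t : ℝ) (u : V), Ψ t (p u) = p (Φ t u) := by
  let r : X → V := Function.surjInv hp.surjective
  have hr : ∀ x, p (r x) = x := Function.surjInv_eq hp.surjective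
  have key : ∀ (t : ℝ) (u : V), p (Φ t (r (p u))) = p (Φ t u) := fun t u => h t _ _ (hr _)
  refine ⟨⟨fun t x => p (Φ t (r x)), ?_, ?_, ?_⟩, key⟩
  · have hq : IsOpenQuotientMap (Prod.map (id : ℝ → ℝ) p) := IsOpenQuotientMap.id.prodMap hp
    refine hq.isQuotientMap.continuous_iff.2 ?_
    have e : (Function.uncurry fun (t : ℝ) (x : X) => p (Φ t (r x))) ∘ Prod.map (id : ℝ → ℝ) p =
        fun x : ℝ × V => p (Φ x.1 x.2) := by
      funext x
      exact key x.1 x.2
    rw [e]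
    exact hp.continuous.comp Φ.cont'
  · intro s t x
    obtain ⟨u, rfl⟩ := hp.surjective x
    simp only [key]
    rw [Φ.map_add]
  · intro x
    rw [Φ.map_zero_apply]
    exact hr x

end Q85.PA
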