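import Pool.Agent.Q85.PA.L
import Pool.Agent.Q85.PA.O

/-!
# Flows on the circle
-/

open MeasureTheory Set Filter Topology
open Pool.Agent.H728R2.OS
open scoped NNReal

namespace Q85.PA

theorem fin_of_points {X : Type*} [TopologicalSpace X] [MeasurableSpace X] (μ : Measure X)
    {Ψ : Flow ℝ X} {Z : Set X} (hZ : Z.Finite) (hfix : ∀ z ∈ Z, ∀ t : ℝ, Ψ t z = z)
    (hcov : ∀ y, ∃ z ∈ Z, omegaFlow Ψ y ⊆ {z}) : FiniteFlowAttractors μ Ψ := by
  classical
  let P : Set X := {z ∈ Z | 0 < μ {p | omegaFlow Ψ p ⊆ {z}}}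
  have hP : P.Finite := hZ.subset fun z hz => hz.1
  let F : Finset X := hP.toFinset
  let e := F.equivFin
  have hmem : ∀ i, ((e.symm i : F) : X) ∈ P := fun i => hP.mem_toFinset.1 (e.symm i).2
  refine ⟨F.card, fun i => {((e.symm i : F) : X)}, fun i => ⟨fun t => ?_, ?_, (hmem i).2⟩, ?_⟩
  · rw [image_singleton, hfix _ (hmem i).1]
  · refine ⟨_, rfl, ?_⟩
    rw [singleton_subset_iff]
    refine subset_closure ⟨0, mem_Ici.2 le_rfl, ?_⟩
    exact hfix _ (hmem i).1 0
  · have hsub : {p | ∀ i, ¬ omegaFlow Ψ p ⊆ {((e.symm i : F) : X)}} ⊆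
        ⋃ z ∈ Z \ P, {p | omegaFlow Ψ p ⊆ {z}} := by
      intro p hp
      obtain ⟨z, hz, hpz⟩ := hcov p
      refine mem_biUnion (x := z) ⟨hz, fun hzP => ?_⟩ hpz
      have := hp (e ⟨z, hP.mem_toFinset.2 hzP⟩)
      rw [e.symm_apply_apply] at this
      exact this hpz
    refine measure_mono_null hsub ?_
    rw [measure_biUnion_null_iff (hZ.subset sdiff_subset).countable]
    intro z hz
    by_contra h
    exact hz.2 ⟨hz.1, pos_iff_ne_zero.2 h⟩

theorem per_int {F : Type*} {g : ℝ → F} (hp : ∀ y, g (y + 1) = g y) (y : ℝ) (n : ℤ) :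
    g (y + n) = g y := by
  have : Function.Periodic g 1 := hp
  simpa using this.int_mul n y

theorem per_bdd {F : Type*} [NormedAddCommGroup F] {g : ℝ → F} (hg : Continuous g)
    (hp : ∀ y, g (y + 1) = g y) : ∃ L : ℝ≥0, ∀ y, ‖g y‖ ≤ L := by
  have : Function.Periodic g 1 := hp
  obtain ⟨C, hC⟩ := (this.isBounded_of_continuous one_ne_zero hg).exists_norm_le
  exact ⟨⟨max C 0, le_max_right _ _⟩, fun y => (hC _ ⟨y, rfl⟩).trans (le_max_left _ _)⟩

theorem per_lip {F : Type*} [NormedAddCommGroup F] [NormedSpace ℝ F] {g : ℝ → F}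
    (hg : ContDiff ℝ 1 g) (hp : ∀ y, g (y + 1) = g y) : ∃ K : ℝ≥0, LipschitzWith K g := by
  have hd : Continuous (deriv g) := hg.continuous_deriv le_rfl
  have hper : ∀ y, deriv g (y + 1) = deriv g y := by
    intro y
    have h1 : deriv (fun x => g (x + 1)) y = deriv g (y + 1) := deriv_comp_add_const g 1 y
    have h2 : (fun x => g (x + 1)) = g := funext hp
    rw [← h1, h2]
  obtain ⟨L, hL⟩ := per_bdd hd hper
  exact ⟨L, lipschitzWith_of_nnnorm_deriv_le (hg.differentiable (by norm_num)) fun y => hL y⟩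

theorem ae_regular {v : ℝ → ℝ} (hv : ContDiff ℝ 1 v) :
    ∀ᵐ a : ℝ, ∀ y, v y + a = 0 → deriv v y ≠ 0 := by
  have hdiff : Differentiable ℝ v := hv.differentiable (by norm_num)
  have h1 : volume (v '' {y | deriv v y = 0}) = 0 := by
    refine addHaar_image_eq_zero_of_det_fderivWithin_eq_zero volume (f' := fderiv ℝ v)
      (fun x _ => (hdiff x).hasFDerivAt.hasFDerivWithinAt) fun x hx => ?_
    have h2 : fderiv ℝ v x = 0 := by
      ext
      rw [fderiv_apply_one_eq_deriv]
      exact hx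
    rw [h2]
    simp [ContinuousLinearMap.det]
  have h3 : ∀ᵐ a : ℝ, a ∉ v '' {y | deriv v y = 0} := by
    rw [ae_iff]
    simp only [not_not]
    exact h1
  have h4 := (Measure.measurePreserving_neg (volume : Measure ℝ)).quasiMeasurePreserving.ae h3
  filter_upwards [h4] with a ha y hy hd
  exact ha ⟨y, hd, by linarith⟩

theorem zeros_finite {w : ℝ → ℝ} (hw : ContDiff ℝ 1 w)
    (hreg : ∀ y, w y = 0 → deriv w y ≠ 0) : {y ∈ Icc (0:ℝ) 1 | w y = 0}.Finite := by
  by_contra hinf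
  obtain ⟨z, hz, hacc⟩ := Set.Infinite.exists_accPt_of_subset_isCompact (K := Icc (0:ℝ) 1) hinf
    isCompact_Icc (fun y hy => hy.1)
  have hcl : IsClosed {y | w y = 0} := isClosed_eq hw.continuous continuous_const
  have hwz : w z = 0 := by
    have h1 : AccPt z (𝓟 {y | w y = 0}) := hacc.mono (principal_mono.2 fun y hy => hy.2)
    exact isClosed_iff_accPt.1 hcl z h1
  have h2 := ((hw.differentiable (by norm_num)) z).hasDerivAt.eventually_ne (hreg z hwz)
    (c := (0:ℝ))
  rw [accPt_iff_frequently] at hacc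
  obtain ⟨y, ⟨hy1, hy2⟩, hy3⟩ := (hacc.and_eventually (eventually_nhdsWithin_iff.1 h2)).exists
  exact hy3 hy1 hy2.2

section Flow

variable {w : ℝ → ℝ} {ψ : Flow ℝ ℝ} (hψ : ∀ x t, HasDerivAt (fun s => ψ s x) (w (ψ t x)) t)
include hψ

theorem fix_zero {K : ℝ≥0} (hw : LipschitzWith K w) {z : ℝ} (hz : w z = 0) (t : ℝ) : ψ t z = z := by
  have h := ode_uniq (t₀ := 0) hw (x := fun s => ψ s z) (y := fun _ => z) (hψ z)
    (fun t => by rw [hz]; exact hasDerivAt_const t z) (by rw [ψ.map_zero_apply])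
  exact congrFun h t

theorem zero_fix {z : ℝ} (h : ∀ t, ψ t z = z) : w z = 0 := by
  have h1 := hψ z 0
  have h2 : (fun s => ψ s z) = fun _ => z := funext h
  rw [h2, h] at h1
  exact h1.unique (hasDerivAt_const 0 z)

theorem cont_t (x : ℝ) : Continuous fun t => ψ t x :=
  continuous_iff_continuousAt.2 fun t => (hψ x t).continuousAt

theorem lim_zero {x L : ℝ} (h : Tendsto (fun t => ψ t x) atTop (𝓝 L)) :
    w L = 0 := by
  refine zero_fix hψ fun s => ?_
  have h1 : Tendsto (fun t => ψ s (ψ t x)) atTop (𝓝 (ψ s L)) :=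
    ((ψ.continuous_toFun s).tendsto L).comp h
  have h2 : Tendsto (fun t => ψ s (ψ t x)) atTop (𝓝 L) := by
    have h3 : (fun t => ψ s (ψ t x)) = fun t => ψ (s + t) x := funext fun t => (ψ.map_add s t x).symm
    rw [h3]
    exact h.comp (tendsto_atTop_add_const_left _ s tendsto_id)
  exact tendsto_nhds_unique h1 h2

theorem conv_zero {K : ℝ≥0} (hw : LipschitzWith K w) (hp : ∀ y, w (y + 1) = w y) {z₀ : ℝ}
    (hz₀ : w z₀ = 0) (x : ℝ) : ∃ L, w L = 0 ∧ Tendsto (fun t => ψ t x) atTop (𝓝 L) := by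
  by_cases hx : w x = 0
  · refine ⟨x, hx, ?_⟩
    have : (fun t => ψ t x) = fun _ => x := funext (fix_zero hψ hw hx)
    rw [this]
    exact tendsto_const_nhds
  have hc := cont_t hψ x
  have hne : ∀ t, w (ψ t x) ≠ 0 := by
    intro t ht
    have h1 := fix_zero hψ hw ht (-t)
    rw [← ψ.map_add] at h1
    simp only [neg_add_cancel, ψ.map_zero_apply] at h1
    rw [← h1] at ht
    exact hx ht
  have hcw : Continuous fun t => w (ψ t x) := hw.continuous.comp hc
  have hx0 : ψ 0 x = x := ψ.map_zero_apply x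
  suffices h : ∃ L, Tendsto (fun t => ψ t x) atTop (𝓝 L) by
    obtain ⟨L, hL⟩ := h
    exact ⟨L, lim_zero hψ hL, hL⟩
  have hsign : (∀ t, 0 < w (ψ t x)) ∨ ∀ t, w (ψ t x) < 0 := by
    by_contra hcon
    push Not at hcon
    obtain ⟨⟨t₁, h1⟩, t₂, h2⟩ := hcon
    have h3 := mem_range_of_exists_le_of_exists_ge hcw ⟨t₁, h1⟩ ⟨t₂, h2⟩
    obtain ⟨t, ht⟩ := h3
    exact hne t ht
  rcases hsign with hs | hs
  · have hmono : StrictMono fun t => ψ t x := strictMono_of_hasDerivAt_pos (hψ x) hs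
    obtain ⟨n, hn⟩ := exists_nat_gt (x - z₀)
    have hbd : ∀ t, ψ t x < z₀ + n := by
      intro t
      by_contra hcon
      push Not at hcon
      have h3 := mem_range_of_exists_le_of_exists_ge hc
        ⟨0, show ψ 0 x ≤ z₀ + n by rw [hx0]; linarith⟩ ⟨t, hcon⟩
      obtain ⟨u, hu⟩ := h3
      refine hne u ?_
      have hu' : ψ u x = z₀ + n := hu
      rw [hu']
      have := per_int hp z₀ (n:ℤ)
      push_cast at this
      rw [this, hz₀]
    exact ⟨_, tendsto_atTop_ciSup hmono.monotone ⟨z₀ + n, by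
      rintro _ ⟨t, rfl⟩
      exact (hbd t).le⟩⟩
  · have hmono : StrictAnti fun t => ψ t x := strictAnti_of_hasDerivAt_neg (hψ x) hs
    obtain ⟨n, hn⟩ := exists_nat_gt (z₀ - x)
    have hbd : ∀ t, z₀ - n < ψ t x := by
      intro t
      by_contra hcon
      push Not at hcon
      have h3 := mem_range_of_exists_le_of_exists_ge hc ⟨t, hcon⟩
        ⟨0, show z₀ - n ≤ ψ 0 x by rw [hx0]; linarith⟩
      obtain ⟨u, hu⟩ := h3
      refine hne u ?_
      have hu' : ψ u x = z₀ - n := hu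
      rw [hu']
      have := per_int hp z₀ (-(n:ℤ))
      push_cast at this
      rw [sub_eq_add_neg, this, hz₀]
    exact ⟨_, tendsto_atTop_ciInf hmono.antitone ⟨z₀ - n, by
      rintro _ ⟨t, rfl⟩
      exact (hbd t).le⟩⟩

theorem reach (hw : Continuous w) (hne : ∀ y, w y ≠ 0)
    (x y : ℝ) : ∃ t : ℝ, 0 ≤ t ∧ ∃ n : ℤ, ψ t x = y + n := by
  have hc := cont_t hψ x
  have hx0 : ψ 0 x = x := ψ.map_zero_apply x
  have hsign : (∀ y, 0 < w y) ∨ ∀ y, w y < 0 := by
    by_contra hcon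
    push Not at hcon
    obtain ⟨⟨t₁, h1⟩, t₂, h2⟩ := hcon
    obtain ⟨t, ht⟩ := mem_range_of_exists_le_of_exists_ge hw ⟨t₁, h1⟩ ⟨t₂, h2⟩
    exact hne t ht
  -- a point beyond
  have hunb : ∀ C : ℝ, ∃ t : ℝ, 0 ≤ t ∧ C ≤ |ψ t x - x| := by
    intro C
    by_contra hcon
    push Not at hcon
    rcases hsign with hs | hs
    · have hmono : StrictMono fun t => ψ t x := strictMono_of_hasDerivAt_pos (hψ x) fun t => hs _
      have hb : BddAbove (range fun t => ψ t x) := by
        refine ⟨x + C, ?_⟩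
        rintro _ ⟨t, rfl⟩
        have h1 := hcon (max t 0) (le_max_right _ _)
        have h2 := hmono.monotone (le_max_left t 0)
        have h3 := (abs_lt.1 h1).2
        simp only at h2 ⊢
        linarith
      exact hne _ (lim_zero hψ (tendsto_atTop_ciSup hmono.monotone hb))
    · have hmono : StrictAnti fun t => ψ t x := strictAnti_of_hasDerivAt_neg (hψ x) fun t => hs _
      have hb : BddBelow (range fun t => ψ t x) := by
        refine ⟨x - C, ?_⟩
        rintro _ ⟨t, rfl⟩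
        have h1 := hcon (max t 0) (le_max_right _ _)
        have h2 := hmono.antitone (le_max_left t 0)
        have h3 := (abs_lt.1 h1).1
        simp only at h2 ⊢
        linarith
      exact hne _ (lim_zero hψ (tendsto_atTop_ciInf hmono.antitone hb))
  rcases hsign with hs | hs
  · have hmono : StrictMono fun t => ψ t x := strictMono_of_hasDerivAt_pos (hψ x) fun t => hs _
    obtain ⟨n, hn⟩ := exists_nat_gt (x - y)
    obtain ⟨T, hT, hT'⟩ := hunb (y + n - x)
    have h1 : x ≤ ψ T x := by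
      have := hmono.monotone hT
      simpa [hx0] using this
    rw [abs_of_nonneg (by linarith)] at hT'
    have h2 := intermediate_value_Icc hT hc.continuousOn
    obtain ⟨t, ht, ht'⟩ := h2 (show y + n ∈ Icc (ψ 0 x) (ψ T x) from
      ⟨by rw [hx0]; linarith, by linarith⟩)
    exact ⟨t, ht.1, n, by simpa using ht'⟩
  · have hmono : StrictAnti fun t => ψ t x := strictAnti_of_hasDerivAt_neg (hψ x) fun t => hs _
    obtain ⟨n, hn⟩ := exists_nat_gt (y - x)
    obtain ⟨T, hT, hT'⟩ := hunb (x - (y - n))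
    have h1 : ψ T x ≤ x := by
      have := hmono.antitone hT
      simpa [hx0] using this
    rw [abs_of_nonpos (by linarith)] at hT'
    have h2 := intermediate_value_Icc' hT hc.continuousOn
    obtain ⟨t, ht, ht'⟩ := h2 (show y - n ∈ Icc (ψ T x) (ψ 0 x) from
      ⟨by linarith, by rw [hx0]; linarith⟩)
    refine ⟨t, ht.1, -(n:ℤ), ?_⟩
    push_cast
    rw [← sub_eq_add_neg]
    exact ht'

/-- A flow on the circle with nondegenerate zeros has finitely many attractors. -/
theorem circle_fin (hw : ContDiff ℝ 1 w) (hp : ∀ y, w (y + 1) = w y)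
    (hreg : ∀ y, w y = 0 → deriv w y ≠ 0) {Ψ : Flow ℝ Circ}
    (hΨ : ∀ (t y : ℝ), Ψ t (y : UnitAddCircle) = ((ψ t y : ℝ) : UnitAddCircle)) :
    FiniteFlowAttractors (volume : Measure Circ) Ψ := by
  obtain ⟨K, hK⟩ := per_lip hw hp
  have hsurj : ∀ y : Circ, ∃ x : ℝ, (x : UnitAddCircle) = y := QuotientAddGroup.mk_surjective
  by_cases hz : ∃ z₀, w z₀ = 0
  · obtain ⟨z₀, hz₀⟩ := hz
    refine fin_of_points volume (Z := (fun y : ℝ => (y : UnitAddCircle)) '' {y ∈ Icc (0:ℝ) 1 | w y = 0})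
      ((zeros_finite hw hreg).image _) ?_ ?_
    · rintro _ ⟨y, hy, rfl⟩ t
      rw [hΨ, fix_zero hψ hK hy.2]
    · intro q
      obtain ⟨x, rfl⟩ := hsurj q
      obtain ⟨L, hL, hlim⟩ := conv_zero hψ hK hp hz₀ x
      refine ⟨(L : UnitAddCircle), ⟨Int.fract L, ⟨⟨Int.fract_nonneg L, (Int.fract_lt_one L).le⟩, ?_⟩,
        ?_⟩, ?_⟩
      · have h1 := per_int hp (Int.fract L) ⌊L⌋
        rw [Int.fract_add_floor] at h1
        rw [← h1, hL]
      · have h1 : (L : UnitAddCircle) = ((Int.fract L + (⌊L⌋ : ℝ) : ℝ) : UnitAddCircle) := by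
          rw [Int.fract_add_floor]
        simp only
        rw [h1, AddCircle.coe_add]
        have h2 : (((⌊L⌋ : ℤ) : ℝ) : UnitAddCircle) = 0 := by
          rw [AddCircle.coe_eq_zero_iff]
          exact ⟨⌊L⌋, by simp⟩
        rw [h2, add_zero]
      · intro q hq
        rw [mem_singleton_iff]
        have hlim2 : Tendsto (fun t : ℝ => Ψ t (x : UnitAddCircle)) atTop (𝓝 (L : UnitAddCircle)) := by
          simp_rw [hΨ]
          exact ((AddCircle.continuous_mk' 1).tendsto L).comp hlim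
        by_contra hne
        obtain ⟨U, V, hU, hV, hqU, hLV, hdis⟩ := t2_separation hne
        obtain ⟨T, hT⟩ := eventually_atTop.1 (hlim2.eventually (hV.mem_nhds hLV))
        obtain ⟨t, ht, hm⟩ := hq U (hU.mem_nhds hqU) T
        exact disjoint_left.1 hdis hm (hT t ht)
  · push Not at hz
    refine ⟨1, fun _ => univ, fun _ => ⟨fun t => ?_, ⟨((0:ℝ) : UnitAddCircle), mem_univ _, ?_⟩, ?_⟩, ?_⟩
    · rw [image_univ]
      exact (Ψ.toHomeomorph t).surjective.range_eq
    · intro q _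
      obtain ⟨y, rfl⟩ := hsurj q
      obtain ⟨t, ht, n, hn⟩ := reach hψ hw.continuous hz 0 y
      refine subset_closure ⟨t, mem_Ici.2 ht, ?_⟩
      simp only
      rw [hΨ, hn, AddCircle.coe_add]
      have h2 : (((n : ℤ) : ℝ) : UnitAddCircle) = 0 := by
        rw [AddCircle.coe_eq_zero_iff]
        exact ⟨n, by simp⟩
      rw [h2, add_zero]
    · simp
    · simp

end Flow

end Q85.PA
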