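import Pool.Agent.H728R2.FA.Defs

/-!
# Integer matrices acting on the torus, and almost everywhere density
-/

open MeasureTheory Set Filter Topology UnitAddTorus
open Pool.Agent.H728R2.OS

namespace Q85.PA

variable {k : ℕ}

/-- The endomorphism of the torus given by an integer matrix. -/
def mulT (A : Matrix (Fin k) (Fin k) ℤ) (s : Torus k) : Torus k := fun i => ∑ j, A i j • s j

theorem mulT_cont (A : Matrix (Fin k) (Fin k) ℤ) : Continuous (mulT A) := by
  unfold mulT
  fun_prop

theorem mulT_map_add (A : Matrix (Fin k) (Fin k) ℤ) (s t : Torus k) :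
    mulT A (s + t) = mulT A s + mulT A t := by
  funext i
  simp [mulT, Finset.sum_add_distrib]

theorem mulT_map_zero (A : Matrix (Fin k) (Fin k) ℤ) : mulT A 0 = 0 := by
  funext i
  simp [mulT]

theorem mulT_one (s : Torus k) : mulT 1 s = s := by
  funext i
  simp only [mulT, Matrix.one_apply, ite_smul, one_smul, zero_smul, Finset.sum_ite_eq,
    Finset.mem_univ, if_true]

theorem mulT_zero (s : Torus k) : mulT 0 s = 0 := by
  funext i
  simp [mulT]

theorem mulT_add (A B : Matrix (Fin k) (Fin k) ℤ) (s : Torus k) :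
    mulT (A + B) s = mulT A s + mulT B s := by
  funext i
  simp [mulT, Matrix.add_apply, add_smul, Finset.sum_add_distrib]

theorem mulT_mul (A B : Matrix (Fin k) (Fin k) ℤ) (s : Torus k) :
    mulT (A * B) s = mulT A (mulT B s) := by
  funext i
  simp only [mulT, Matrix.mul_apply, Finset.sum_smul, Finset.smul_sum]
  rw [Finset.sum_comm]
  refine Finset.sum_congr rfl fun j _ => Finset.sum_congr rfl fun l _ => ?_
  rw [mul_smul]

theorem toC_sum {ι : Type*} (F : Finset ι) (x : ι → UnitAddCircle) :
    (AddCircle.toCircle (∑ i ∈ F, x i) : ℂ) = ∏ i ∈ F, (AddCircle.toCircle (x i) : ℂ) := by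
  classical
  induction F using Finset.induction_on with
  | empty => simp
  | insert a F ha ih =>
    rw [Finset.sum_insert ha, Finset.prod_insert ha, AddCircle.toCircle_add, Circle.coe_mul, ih]

theorem mF_apply (v : Fin k → ℤ) (s : Torus k) :
    mFourier v s = (AddCircle.toCircle (∑ i, v i • s i) : ℂ) := by
  rw [toC_sum]
  rfl

theorem mF_mulT (v : Fin k → ℤ) (B : Matrix (Fin k) (Fin k) ℤ) (s : Torus k) :
    mFourier v (mulT B s) = mFourier (Matrix.vecMul v B) s := by
  rw [mF_apply, mF_apply]
  congr 2
  simp only [mulT, Finset.smul_sum, Matrix.vecMul, dotProduct, Finset.sum_smul]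
  rw [Finset.sum_comm]
  refine Finset.sum_congr rfl fun j _ => Finset.sum_congr rfl fun l _ => ?_
  rw [mul_smul]

theorem mF_add (v : Fin k → ℤ) (s t : Torus k) :
    mFourier v (s + t) = mFourier v s * mFourier v t := by
  rw [mF_apply, mF_apply, mF_apply, ← Circle.coe_mul, ← AddCircle.toCircle_add]
  congr 2
  simp [Finset.sum_add_distrib]

theorem mF_norm (v : Fin k → ℤ) (s : Torus k) : ‖mFourier v s‖ = 1 := by
  rw [mF_apply, Circle.norm_coe]

theorem mF_int {v : Fin k → ℤ} (hv : v ≠ 0) :
    ∫ s : Torus k, mFourier v s = 0 := by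
  obtain ⟨i, hi⟩ := Function.ne_iff.1 hv
  have hi' : v i ≠ 0 := hi
  let t : Torus k := Pi.single i (((1 / (2 * (v i : ℝ)) : ℝ)) : UnitAddCircle)
  have ht : mFourier v t = -1 := by
    rw [mF_apply]
    have : ∑ j, v j • t j = ((1 / 2 : ℝ) : UnitAddCircle) := by
      rw [Finset.sum_eq_single i]
      · have : (v i : ℝ) ≠ 0 := by exact_mod_cast hi'
        simp only [t, Pi.single_eq_same]
        rw [← AddCircle.coe_zsmul, zsmul_eq_mul]
        congr 1
        field_simp
      · intro j _ hj
        simp [t, Pi.single_eq_of_ne hj]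
      · intro h
        exact absurd (Finset.mem_univ i) h
    rw [this, AddCircle.toCircle_apply_mk, Circle.coe_exp]
    have : (((2 * Real.pi / 1 * (1 / 2) : ℝ)) : ℂ) = Real.pi := by
      push_cast
      ring
    rw [this]
    exact Complex.exp_pi_mul_I
  have h1 : ∫ s : Torus k, mFourier v (t + s) = ∫ s : Torus k, mFourier v s :=
    integral_add_left_eq_self (fun s => mFourier v s) t
  have h2 : ∫ s : Torus k, mFourier v (t + s) = - ∫ s : Torus k, mFourier v s := by
    rw [← integral_neg]
    refine integral_congr_ae (Eventually.of_forall fun s => ?_)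
    simp only [mF_add, ht]
    ring
  have h3 : ∫ s : Torus k, mFourier v s = - ∫ s : Torus k, mFourier v s := by
    rw [← h2, h1]
  linear_combination h3 / 2

/-- A trigonometric polynomial is orthogonal to all but finitely many characters. -/
theorem span_fin (P : C(Torus k, ℂ)) (hP : P ∈ Submodule.span ℂ (range (mFourier (d := Fin k)))) :
    ∃ F : Finset (Fin k → ℤ), ∀ n ∉ F, ∫ s : Torus k, mFourier n s * P s = 0 := by
  classical
  induction hP using Submodule.span_induction with
  | mem x h =>
    obtain ⟨w, rfl⟩ := h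
    refine ⟨{-w}, fun n hn => ?_⟩
    have : ∀ s : Torus k, mFourier n s * mFourier w s = mFourier (n + w) s :=
      fun s => mFourier_add.symm
    simp_rw [this]
    refine mF_int fun h => hn ?_
    rw [Finset.mem_singleton]
    exact eq_neg_of_add_eq_zero_left h
  | zero => exact ⟨∅, fun n _ => by simp⟩
  | add x y _ _ hx hy =>
    obtain ⟨F, hF⟩ := hx
    obtain ⟨G, hG⟩ := hy
    refine ⟨F ∪ G, fun n hn => ?_⟩
    rw [Finset.mem_union, not_or] at hn
    have e : ∀ s : Torus k, mFourier n s * (x + y) s = mFourier n s * x s + mFourier n s * y s := by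
      intro s
      rw [ContinuousMap.add_apply, mul_add]
    simp_rw [e]
    rw [integral_add, hF n hn.1, hG n hn.2, add_zero]
    · exact (by fun_prop : Continuous fun s : Torus k => mFourier n s * x s).integrable_of_hasCompactSupport
        (HasCompactSupport.of_compactSpace _)
    · exact (by fun_prop : Continuous fun s : Torus k => mFourier n s * y s).integrable_of_hasCompactSupport
        (HasCompactSupport.of_compactSpace _)
  | smul a x _ hx =>
    obtain ⟨F, hF⟩ := hx
    refine ⟨F, fun n hn => ?_⟩
    have e : ∀ s : Torus k, mFourier n s * (a • x) s = a * (mFourier n s * x s) := by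
      intro s
      rw [ContinuousMap.smul_apply, smul_eq_mul]
      ring
    simp_rw [e]
    rw [integral_const_mul, hF n hn, mul_zero]

theorem poly_approx (Q : C(Torus k, ℂ)) {ε : ℝ} (hε : 0 < ε) :
    ∃ P ∈ Submodule.span ℂ (range (mFourier (d := Fin k))), ∀ s, ‖Q s - P s‖ ≤ ε := by
  have h := span_mFourier_closure_eq_top (d := Fin k)
  have h1 : Q ∈ (Submodule.span ℂ (range (mFourier (d := Fin k)))).topologicalClosure := by
    rw [h]
    trivial
  have h2 : Q ∈ closure ((Submodule.span ℂ (range (mFourier (d := Fin k))) :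
      Submodule ℂ C(Torus k, ℂ)) : Set C(Torus k, ℂ)) := h1
  obtain ⟨P, hP, hd⟩ := Metric.mem_closure_iff.1 h2 ε hε
  refine ⟨P, hP, fun s => ?_⟩
  have := (Q - P).norm_coe_le_norm s
  rw [dist_eq_norm] at hd
  exact (this.trans hd.le)

instance prob_torus (k : ℕ) : IsProbabilityMeasure (volume : Measure (Torus k)) := ⟨by
  rw [volume_pi, Measure.pi_univ]
  simp⟩

/-- Riemann-Lebesgue lemma for a measurable set. -/
theorem rl {E : Set (Torus k)} (hE : MeasurableSet E) {ε : ℝ} (hε : 0 < ε) :
    {n : Fin k → ℤ | ε ≤ ‖∫ s in E, mFourier n s‖}.Finite := by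
  have hint : Integrable (E.indicator fun _ : Torus k => (1:ℂ)) :=
    (integrable_const (1:ℂ)).indicator hE
  obtain ⟨g, hg, hd, hgc, hgi⟩ := hint.exists_hasCompactSupport_integral_sub_le
    (show (0:ℝ) < ε / 3 by positivity)
  obtain ⟨P, hP, hQ⟩ := poly_approx (⟨g, hgc⟩ : C(Torus k, ℂ)) (show (0:ℝ) < ε / 3 by positivity)
  obtain ⟨F, hF⟩ := span_fin P hP
  refine F.finite_toSet.subset fun n hn => ?_
  by_contra hcon
  have h0 := hF n (by simpa using hcon)
  rw [mem_ofPred_eq] at hn
  have e1 : ∫ s in E, mFourier n s = ∫ s, mFourier n s * E.indicator (fun _ => (1:ℂ)) s := by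
    rw [← integral_indicator hE]
    refine integral_congr_ae (Eventually.of_forall fun s => ?_)
    by_cases h : s ∈ E
    · simp [h]
    · simp [h]
  have i1 : Integrable fun s : Torus k => mFourier n s * E.indicator (fun _ => (1:ℂ)) s := by
    refine hint.bdd_mul (c := 1) (mFourier n).continuous.aestronglyMeasurable ?_
    exact Eventually.of_forall fun s => (mF_norm n s).le
  have i2 : Integrable fun s : Torus k => mFourier n s * g s :=
    (by fun_prop : Continuous fun s : Torus k => mFourier n s * g s).integrable_of_hasCompactSupport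
      (HasCompactSupport.of_compactSpace _)
  have i3 : Integrable fun s : Torus k => mFourier n s * P s :=
    (by fun_prop : Continuous fun s : Torus k => mFourier n s * P s).integrable_of_hasCompactSupport
      (HasCompactSupport.of_compactSpace _)
  have e2 : ∫ s in E, mFourier n s =
      (∫ s, (mFourier n s * E.indicator (fun _ => (1:ℂ)) s - mFourier n s * g s)) +
      ∫ s, (mFourier n s * g s - mFourier n s * P s) := by
    rw [integral_sub i1 i2, integral_sub i2 i3, h0, e1]
    ring
  have b1 : ‖∫ s, (mFourier n s * E.indicator (fun _ => (1:ℂ)) s - mFourier n s * g s)‖ ≤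
      ε / 3 := by
    refine (norm_integral_le_integral_norm _).trans (le_trans (le_of_eq ?_) hd)
    refine integral_congr_ae (Eventually.of_forall fun s => ?_)
    simp only
    rw [← mul_sub, norm_mul, mF_norm, one_mul]
  have b2 : ‖∫ s, (mFourier n s * g s - mFourier n s * P s)‖ ≤ ε / 3 := by
    have := norm_integral_le_of_norm_le_const (μ := (volume : Measure (Torus k)))
      (f := fun s => mFourier n s * g s - mFourier n s * P s) (C := ε / 3)
      (Eventually.of_forall fun s => by
        rw [← mul_sub, norm_mul, mF_norm, one_mul]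
        exact hQ s)
    simpa using this
  have := (norm_add_le _ _).trans (add_le_add b1 b2)
  rw [← e2] at this
  linarith

theorem span_lim {E : Set (Torus k)} (hE : MeasurableSet E) (c : ℕ → Torus k)
    (B : ℕ → Matrix (Fin k) (Fin k) ℤ)
    (hB : ∀ v : Fin k → ℤ, v ≠ 0 → Tendsto (fun j => Matrix.vecMul v (B j)) atTop cofinite)
    (P : C(Torus k, ℂ)) (hP : P ∈ Submodule.span ℂ (range (mFourier (d := Fin k)))) :
    Tendsto (fun j => ∫ s in E, P (c j + mulT (B j) s)) atTop
      (𝓝 ((volume.real E : ℂ) * ∫ s, P s)) := by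
  have hcont : ∀ (j : ℕ) (x : C(Torus k, ℂ)),
      Integrable (fun s => x (c j + mulT (B j) s)) (volume.restrict E) := by
    intro j x
    have h1 : Continuous fun s : Torus k => x (c j + mulT (B j) s) :=
      x.continuous.comp (continuous_const.add (mulT_cont (B j)))
    exact (h1.integrable_of_hasCompactSupport (HasCompactSupport.of_compactSpace _)).integrableOn
  have hi : ∀ x : C(Torus k, ℂ), Integrable (fun s => x s) := fun x =>
    x.continuous.integrable_of_hasCompactSupport (HasCompactSupport.of_compactSpace _)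
  induction hP using Submodule.span_induction with
  | mem x h =>
    obtain ⟨v, rfl⟩ := h
    by_cases hv : v = 0
    · subst hv
      simp only [mFourier_zero, ContinuousMap.one_apply]
      simp
    · rw [mF_int hv, mul_zero]
      rw [tendsto_zero_iff_norm_tendsto_zero]
      rw [Metric.tendsto_atTop]
      intro ε hε
      have h1 := (hB v hv).eventually (rl hE hε).compl_mem_cofinite
      obtain ⟨N, hN⟩ := eventually_atTop.1 h1
      refine ⟨N, fun j hj => ?_⟩
      have h2 := hN j hj
      have e : ∫ s in E, mFourier v (c j + mulT (B j) s) =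
          mFourier v (c j) * ∫ s in E, mFourier (Matrix.vecMul v (B j)) s := by
        rw [← integral_const_mul]
        refine integral_congr_ae (Eventually.of_forall fun s => ?_)
        simp only
        rw [mF_add, mF_mulT]
      rw [e, norm_mul, mF_norm, one_mul, Real.dist_eq, sub_zero, abs_norm]
      rw [mem_ofPred_eq, not_le] at h2
      exact h2
  | zero => simp
  | add x y _ _ hx hy =>
    have h1 := hx.add hy
    have e1 : (fun j => ∫ s in E, (x + y) (c j + mulT (B j) s)) =
        fun j => (∫ s in E, x (c j + mulT (B j) s)) + ∫ s in E, y (c j + mulT (B j) s) := by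
      funext j
      rw [← integral_add (hcont j x) (hcont j y)]
      rfl
    have e2 : ∫ s : Torus k, (x + y) s = (∫ s, x s) + ∫ s, y s := by
      rw [← integral_add (hi x) (hi y)]
      rfl
    rw [e1, e2, mul_add]
    exact h1
  | smul a x _ hx =>
    have e1 : (fun j => ∫ s in E, (a • x) (c j + mulT (B j) s)) =
        fun j => a * (∫ s in E, x (c j + mulT (B j) s)) := by
      funext j
      rw [← integral_const_mul]
      rfl
    have e2 : ∫ s : Torus k, (a • x) s = a * ∫ s, x s := by
      rw [← integral_const_mul]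
      rfl
    rw [e1, e2, mul_left_comm]
    exact hx.const_mul a

/-- For almost every `θ` the points `c j + B j θ` visit every open set infinitely often. -/
theorem avoid_null {U : Set (Torus k)} (hU : IsOpen U) (hne : U.Nonempty) (c : ℕ → Torus k)
    (B : ℕ → Matrix (Fin k) (Fin k) ℤ)
    (hB : ∀ v : Fin k → ℤ, v ≠ 0 → Tendsto (fun j => Matrix.vecMul v (B j)) atTop cofinite)
    (J : ℕ) : volume {θ : Torus k | ∀ j ≥ J, c j + mulT (B j) θ ∉ U} = 0 := by
  set E : Set (Torus k) := {θ : Torus k | ∀ j ≥ J, c j + mulT (B j) θ ∉ U} with hEd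
  have hEc : IsClosed E := by
    have : E = ⋂ j : ℕ, ⋂ _ : j ≥ J, {θ | c j + mulT (B j) θ ∈ U}ᶜ := by
      ext θ
      simp [hEd]
    rw [this]
    refine isClosed_iInter fun j => isClosed_iInter fun _ => ?_
    exact (hU.preimage (continuous_const.add (mulT_cont (B j)))).isClosed_compl
  have hE := hEc.measurableSet
  obtain ⟨u, hu⟩ := hne
  obtain ⟨q, hq0, hq1, hq⟩ := exists_continuous_zero_one_of_isClosed (X := Torus k)
    hU.isClosed_compl (isClosed_singleton (x := u))
    (disjoint_left.2 fun x hx hx' => hx (by rw [mem_singleton_iff.1 hx']; exact hu))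
  have hqc : Continuous fun s : Torus k => ((q s : ℝ) : ℂ) :=
    Complex.continuous_ofReal.comp q.continuous
  let Q : C(Torus k, ℂ) := ⟨fun s => ((q s : ℝ) : ℂ), hqc⟩
  have hpos : 0 < ∫ s, q s := by
    refine (q.continuous.integral_pos_of_hasCompactSupport_nonneg_nonzero
      (HasCompactSupport.of_compactSpace _) (fun s => (hq s).1) (x := u) ?_)
    rw [hq1 (mem_singleton u)]
    simp
  have hkey : ∀ ε : ℝ, 0 < ε → volume.real E * ∫ s, q s ≤ 2 * ε := by
    intro ε hε
    obtain ⟨P, hP, hQP⟩ := poly_approx Q hε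
    have hl := span_lim hE c B hB P hP
    have hb : ∀ᶠ j in atTop, ‖∫ s in E, P (c j + mulT (B j) s)‖ ≤ ε := by
      filter_upwards [eventually_ge_atTop J] with j hj
      have h1 : ∀ s ∈ E, ‖P (c j + mulT (B j) s)‖ ≤ ε := by
        intro s hs
        have h2 := hQP (c j + mulT (B j) s)
        have h3 : Q (c j + mulT (B j) s) = 0 := by
          change ((q (c j + mulT (B j) s) : ℝ) : ℂ) = 0
          rw [hq0 (hs j hj)]
          simp
        rwa [h3, zero_sub, norm_neg] at h2
      have h4 := norm_setIntegral_le_of_norm_le_const (μ := (volume : Measure (Torus k)))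
        (measure_lt_top _ E) h1
      refine h4.trans ?_
      have : volume.real E ≤ 1 := measureReal_le_one
      nlinarith
    have h5 : ‖(volume.real E : ℂ) * ∫ s, P s‖ ≤ ε :=
      le_of_tendsto hl.norm hb
    have h6 : ‖(∫ s, Q s) - ∫ s, P s‖ ≤ ε := by
      rw [← integral_sub]
      · have := norm_integral_le_of_norm_le_const (μ := (volume : Measure (Torus k)))
          (f := fun s => Q s - P s) (C := ε) (Eventually.of_forall fun s => hQP s)
        simpa using this
      · exact Q.continuous.integrable_of_hasCompactSupport (HasCompactSupport.of_compactSpace _)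
      · exact P.continuous.integrable_of_hasCompactSupport (HasCompactSupport.of_compactSpace _)
    have h7 : (∫ s, Q s) = ((∫ s, q s : ℝ) : ℂ) := integral_ofReal
    have h8 : ‖(volume.real E : ℂ) * ∫ s, Q s‖ ≤ 2 * ε := by
      have e : (volume.real E : ℂ) * ∫ s, Q s = (volume.real E : ℂ) * ((∫ s, Q s) - ∫ s, P s) +
          (volume.real E : ℂ) * ∫ s, P s := by ring
      rw [e]
      refine (norm_add_le _ _).trans ?_
      have h9 : ‖(volume.real E : ℂ) * ((∫ s, Q s) - ∫ s, P s)‖ ≤ ε := by
        rw [norm_mul, Complex.norm_real, Real.norm_eq_abs, abs_of_nonneg measureReal_nonneg]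
        have : volume.real E ≤ 1 := measureReal_le_one
        nlinarith [norm_nonneg ((∫ s, Q s) - ∫ s, P s), measureReal_nonneg (μ := volume) (s := E)]
      linarith
    rw [h7, ← Complex.ofReal_mul, Complex.norm_real, Real.norm_eq_abs] at h8
    exact (le_abs_self _).trans h8
  have hzero : volume.real E * ∫ s, q s ≤ 0 := by
    refine le_of_forall_pos_le_add fun ε hε => ?_
    have := hkey (ε / 2) (by positivity)
    linarith
  have h10 : volume.real E = 0 := by
    have := measureReal_nonneg (μ := volume) (s := E)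
    by_contra hne
    have h11 : 0 < volume.real E := lt_of_le_of_ne this (Ne.symm hne)
    nlinarith [mul_pos h11 hpos]
  exact (measureReal_eq_zero_iff (measure_ne_top _ _)).1 h10

/-- For almost every `θ` the sequence `c j + B j θ` is dense in the torus, with all its tails. -/
theorem ae_dense (c : ℕ → Torus k) (B : ℕ → Matrix (Fin k) (Fin k) ℤ)
    (hB : ∀ v : Fin k → ℤ, v ≠ 0 → Tendsto (fun j => Matrix.vecMul v (B j)) atTop cofinite) :
    ∀ᵐ θ : Torus k, ∀ U : Set (Torus k), IsOpen U → U.Nonempty → ∀ J : ℕ,
      ∃ j ≥ J, c j + mulT (B j) θ ∈ U := by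
  have hb := TopologicalSpace.isBasis_countableBasis (Torus k)
  have h1 : ∀ᵐ θ : Torus k, ∀ U ∈ TopologicalSpace.countableBasis (Torus k), ∀ J : ℕ,
      U.Nonempty → ∃ j ≥ J, c j + mulT (B j) θ ∈ U := by
    rw [ae_ball_iff (TopologicalSpace.countable_countableBasis _)]
    intro U hU
    rw [ae_all_iff]
    intro J
    by_cases hne : U.Nonempty
    · have h2 := avoid_null (hb.isOpen hU) hne c B hB J
      rw [ae_iff]
      convert h2 using 3 with θ
      simp [hne]
    · exact Eventually.of_forall fun θ h => absurd h hne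
  filter_upwards [h1] with θ hθ U hU hne J
  obtain ⟨x, hx⟩ := hne
  obtain ⟨V, hV, hxV, hVU⟩ := hb.exists_subset_of_mem_open hx hU
  obtain ⟨j, hj, hm⟩ := hθ V hV J ⟨x, hxV⟩
  exact ⟨j, hj, hVU hm⟩

/-- The partial sums `1 + A + ⋯ + A^(n-1)`. -/
def psum (A : Matrix (Fin k) (Fin k) ℤ) (n : ℕ) : Matrix (Fin k) (Fin k) ℤ :=
  ∑ i ∈ Finset.range n, A ^ i

theorem psum_succ (A : Matrix (Fin k) (Fin k) ℤ) (n : ℕ) : psum A (n + 1) = 1 + A * psum A n := by
  rw [psum, psum, Finset.sum_range_succ', Finset.mul_sum, pow_zero, add_comm]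
  congr 1
  exact Finset.sum_congr rfl fun i _ => pow_succ' A i

theorem psum_add (A : Matrix (Fin k) (Fin k) ℤ) (n m : ℕ) :
    psum A (n + m) = psum A n + psum A m * A ^ n := by
  rw [psum, Finset.sum_range_add, psum, psum, Finset.sum_mul]
  congr 1
  exact Finset.sum_congr rfl fun i _ => by rw [← pow_add, add_comm]

theorem psum_inj {A : Matrix (Fin k) (Fin k) ℤ} (hA : A.det ≠ 0)
    (hA' : ∀ m : ℕ, 1 ≤ m → (psum A m).det ≠ 0) {v : Fin k → ℤ} (hv : v ≠ 0) :
    Function.Injective fun n => Matrix.vecMul v (psum A n) := by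
  have key : ∀ n m : ℕ, 1 ≤ m → Matrix.vecMul v (psum A n) ≠ Matrix.vecMul v (psum A (n + m)) := by
    intro n m hm h
    rw [psum_add, Matrix.vecMul_add] at h
    have h1 : Matrix.vecMul v (psum A m * A ^ n) = 0 := by
      have := h
      rwa [eq_comm, add_eq_left] at this
    have h2 : (psum A m * A ^ n).det ≠ 0 := by
      rw [Matrix.det_mul, Matrix.det_pow]
      exact mul_ne_zero (hA' m hm) (pow_ne_zero _ hA)
    exact hv (Matrix.eq_zero_of_vecMul_eq_zero h2 h1)
  intro n m h
  rcases lt_trichotomy n m with h1 | h1 | h1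
  · obtain ⟨d, rfl⟩ := Nat.exists_eq_add_of_lt h1
    exact absurd h (by simpa [add_assoc] using key n (d + 1) (by omega))
  · exact h1
  · obtain ⟨d, rfl⟩ := Nat.exists_eq_add_of_lt h1
    exact absurd h.symm (by simpa [add_assoc] using key m (d + 1) (by omega))

end Q85.PA
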