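import Pool.Agent.Q85.PA.C

/-!
# Torus invariant vector fields on `𝕋^k × 𝕋`
-/

open MeasureTheory Set Filter Topology
open Pool.Agent.H728R2.OS
open scoped NNReal

namespace Q85.PA

variable {k : ℕ}

/-- The flow `Φ` of `𝕋^k × 𝕋` is generated by the vector field `(φ y, v y)` at the point `(x, y)`:
the orbits of `Φ` are the projections of the solutions of `ξ' = φ η`, `η' = v η`. -/
def Generates (φ : ℝ → Fin k → ℝ) (v : ℝ → ℝ) (Φ : Flow ℝ (Torus k × Circ)) : Prop :=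
  ∀ (x : Fin k → ℝ) (y : ℝ), ∃ (ξ : ℝ → Fin k → ℝ) (η : ℝ → ℝ), ξ 0 = x ∧ η 0 = y ∧
    ∀ t : ℝ, HasDerivAt ξ (φ (η t)) t ∧ HasDerivAt η (v (η t)) t ∧
      Φ t (toTorus x, (y : UnitAddCircle)) = (toTorus (ξ t), (η t : UnitAddCircle))

theorem open_quot (k : ℕ) : IsOpenQuotientMap fun z : (Fin k → ℝ) × ℝ =>
    ((toTorus z.1, (z.2 : UnitAddCircle)) : Torus k × Circ) := by
  have h1 : IsOpenQuotientMap (fun z : ℝ => (z : UnitAddCircle)) :=
    QuotientAddGroup.isOpenQuotientMap_mk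
  have h2 : IsOpenQuotientMap (toTorus (d := k)) := IsOpenQuotientMap.piMap fun _ => h1
  exact h2.prodMap h1

theorem toTorus_eq {a b : Fin k → ℝ} (h : toTorus a = toTorus b) :
    ∃ m : Fin k → ℤ, b = a + fun i => (m i : ℝ) := by
  have h1 : ∀ i, ∃ m : ℤ, b i = a i + m := by
    intro i
    have h2 : ((b i - a i : ℝ) : UnitAddCircle) = 0 := by
      rw [AddCircle.coe_sub, sub_eq_zero]
      exact (congrFun h i).symm
    rw [AddCircle.coe_eq_zero_iff] at h2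
    obtain ⟨n, hn⟩ := h2
    refine ⟨n, ?_⟩
    simp at hn
    linarith
  choose m hm using h1
  exact ⟨m, funext hm⟩

theorem circ_eq {a b : ℝ} (h : (a : UnitAddCircle) = b) : ∃ n : ℤ, b = a + n := by
  have h2 : ((b - a : ℝ) : UnitAddCircle) = 0 := by
    rw [AddCircle.coe_sub, sub_eq_zero]
    exact h.symm
  rw [AddCircle.coe_eq_zero_iff] at h2
  obtain ⟨n, hn⟩ := h2
  refine ⟨n, ?_⟩
  simp at hn
  linarith

theorem toTorus_int (m : Fin k → ℤ) : toTorus (fun i => (m i : ℝ)) = (0 : Torus k) := by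
  funext i
  change (((m i : ℤ) : ℝ) : UnitAddCircle) = 0
  rw [AddCircle.coe_eq_zero_iff]
  exact ⟨m i, by simp⟩

theorem coe_int (n : ℤ) : (((n : ℤ) : ℝ) : UnitAddCircle) = 0 := by
  rw [AddCircle.coe_eq_zero_iff]
  exact ⟨n, by simp⟩

/-- The flows on the torus, the circle and the line. -/
theorem flows {φ : ℝ → Fin k → ℝ} {w : ℝ → ℝ} (hφ : ContDiff ℝ 1 φ) (hw : ContDiff ℝ 1 w)
    (pφ : ∀ y, φ (y + 1) = φ y) (pw : ∀ y, w (y + 1) = w y) :
    ∃ (Φ : Flow ℝ (Torus k × Circ)) (Ψ : Flow ℝ Circ) (ψ : Flow ℝ ℝ),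
      (∀ x t, HasDerivAt (fun s => ψ s x) (w (ψ t x)) t) ∧
      (∀ (t y : ℝ), Ψ t (y : UnitAddCircle) = ((ψ t y : ℝ) : UnitAddCircle)) ∧
      Generates φ w Φ ∧ (∀ t p, (Φ t p).2 = Ψ t p.2) ∧
      ∀ (t : ℝ) (s : Torus k) (p : Torus k × Circ), Φ t (s + p.1, p.2) =
        (s + (Φ t p).1, (Φ t p).2) := by
  obtain ⟨K₁, hK₁⟩ := per_lip hφ pφ
  obtain ⟨K₂, hK₂⟩ := per_lip hw pw
  obtain ⟨L₁, hL₁⟩ := per_bdd hφ.continuous pφ
  obtain ⟨L₂, hL₂⟩ := per_bdd hw.continuous pw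
  obtain ⟨ψ, hψ⟩ := exists_flow hK₂ hL₂
  let F : (Fin k → ℝ) × ℝ → (Fin k → ℝ) × ℝ := fun z => (φ z.2, w z.2)
  have hF : LipschitzWith (max (K₁ * 1) (K₂ * 1)) F :=
    (hK₁.comp LipschitzWith.prod_snd).prodMk (hK₂.comp LipschitzWith.prod_snd)
  have hFb : ∀ z, ‖F z‖ ≤ (max L₁ L₂ : ℝ≥0) := by
    intro z
    rw [Prod.norm_def]
    exact max_le ((hL₁ _).trans (by exact_mod_cast le_max_left _ _))
      ((hL₂ _).trans (by exact_mod_cast le_max_right _ _))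
  obtain ⟨Θ, hΘ⟩ := exists_flow hF hFb
  have hsnd : ∀ t z, (Θ t z).2 = ψ t z.2 := by
    intro t z
    have h := ode_uniq (t₀ := 0) hK₂ (x := fun s => (Θ s z).2) (y := fun s => ψ s z.2)
      (fun s => (hΘ z s).snd) (hψ z.2) (by rw [Θ.map_zero_apply, ψ.map_zero_apply])
    exact congrFun h t
  have htr : ∀ (t : ℝ) (z : (Fin k → ℝ) × ℝ) (a : Fin k → ℝ) (n : ℤ),
      Θ t (z.1 + a, z.2 + n) = ((Θ t z).1 + a, (Θ t z).2 + n) := by
    intro t z a n
    have h := ode_uniq (t₀ := 0) hF (x := fun s => Θ s (z.1 + a, z.2 + n))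
      (y := fun s => ((Θ s z).1 + a, (Θ s z).2 + (n:ℝ))) (hΘ _) (fun s => by
        have h1 := ((hΘ z s).fst.add_const a).prodMk ((hΘ z s).snd.add_const (n:ℝ))
        have h2 : F ((Θ s z).1 + a, (Θ s z).2 + (n:ℝ)) = ((F (Θ s z)).1, (F (Θ s z)).2) := by
          simp only [F]
          rw [per_int pφ, per_int pw]
        rw [h2]
        exact h1) (by rw [Θ.map_zero_apply, Θ.map_zero_apply])
    exact congrFun h t
  have hψp : ∀ (t y : ℝ) (n : ℤ), ψ t (y + n) = ψ t y + n := by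
    intro t y n
    have h := ode_uniq (t₀ := 0) hK₂ (x := fun s => ψ s (y + n)) (y := fun s => ψ s y + (n:ℝ))
      (hψ _) (fun s => by
        have h1 := (hψ y s).add_const (n:ℝ)
        rw [per_int pw]
        exact h1) (by rw [ψ.map_zero_apply, ψ.map_zero_apply])
    exact congrFun h t
  obtain ⟨Φ, hΦ⟩ := flow_desc (open_quot k) Θ (by
    intro t u z h
    rw [Prod.ext_iff] at h
    obtain ⟨m, hm⟩ := toTorus_eq h.1
    obtain ⟨n, hn⟩ := circ_eq h.2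
    have e : z = (u.1 + fun i => (m i : ℝ), u.2 + n) := Prod.ext hm hn
    rw [e, htr]
    refine Prod.ext ?_ ?_
    · simp only
      rw [toTorus_add, toTorus_int, add_zero]
    · simp only
      rw [AddCircle.coe_add, coe_int, add_zero])
  obtain ⟨Ψ, hΨ⟩ := flow_desc (p := fun z : ℝ => (z : UnitAddCircle))
    QuotientAddGroup.isOpenQuotientMap_mk ψ (by
    intro t u z h
    obtain ⟨n, hn⟩ := circ_eq h
    change ((ψ t u : ℝ) : UnitAddCircle) = ((ψ t z : ℝ) : UnitAddCircle)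
    rw [hn, hψp, AddCircle.coe_add, coe_int, add_zero])
  refine ⟨Φ, Ψ, ψ, hψ, hΨ, ?_, ?_, ?_⟩
  · intro x y
    refine ⟨fun t => (Θ t (x, y)).1, fun t => (Θ t (x, y)).2, by simp only [Θ.map_zero_apply],
      by simp only [Θ.map_zero_apply], fun t => ⟨(hΘ (x, y) t).fst, (hΘ (x, y) t).snd, hΦ t (x, y)⟩⟩
  · intro t p
    obtain ⟨z, rfl⟩ := (open_quot k).surjective p
    rw [hΦ]
    simp only
    rw [hΨ, hsnd]
  · intro t s p
    obtain ⟨z, rfl⟩ := (open_quot k).surjective p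
    obtain ⟨a, ha⟩ := (IsOpenQuotientMap.piMap fun _ : Fin k =>
      (QuotientAddGroup.isOpenQuotientMap_mk : IsOpenQuotientMap
        (fun z : ℝ => (z : UnitAddCircle)))).surjective s
    have ha' : toTorus a = s := ha
    simp only
    rw [hΦ, ← ha', ← toTorus_add]
    have h1 := hΦ t (z.1 + a, z.2 + (0:ℤ))
    rw [htr] at h1
    simp only [Int.cast_zero, add_zero] at h1
    rw [add_comm a z.1, h1, toTorus_add, add_comm]

theorem gen_unique {φ : ℝ → Fin k → ℝ} {w : ℝ → ℝ} (hφ : ContDiff ℝ 1 φ) (hw : ContDiff ℝ 1 w)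
    (pφ : ∀ y, φ (y + 1) = φ y) (pw : ∀ y, w (y + 1) = w y) {Φ Φ' : Flow ℝ (Torus k × Circ)}
    (h : Generates φ w Φ) (h' : Generates φ w Φ') : Φ' = Φ := by
  obtain ⟨K₁, hK₁⟩ := per_lip hφ pφ
  obtain ⟨K₂, hK₂⟩ := per_lip hw pw
  let F : (Fin k → ℝ) × ℝ → (Fin k → ℝ) × ℝ := fun z => (φ z.2, w z.2)
  have hF : LipschitzWith (max (K₁ * 1) (K₂ * 1)) F :=
    (hK₁.comp LipschitzWith.prod_snd).prodMk (hK₂.comp LipschitzWith.prod_snd)
  refine Flow.ext fun t p => ?_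
  obtain ⟨z, rfl⟩ := (open_quot k).surjective p
  obtain ⟨ξ, η, h1, h2, h3⟩ := h z.1 z.2
  obtain ⟨ξ', η', h1', h2', h3'⟩ := h' z.1 z.2
  have he := ode_uniq (t₀ := 0) hF (x := fun s => (ξ s, η s)) (y := fun s => (ξ' s, η' s))
    (fun s => (h3 s).1.prodMk (h3 s).2.1) (fun s => (h3' s).1.prodMk (h3' s).2.1)
    (by rw [h1, h2, h1', h2'])
  have he' := congrFun he t
  simp only at he' ⊢
  obtain ⟨e1, e2⟩ := Prod.mk.inj he'
  rw [(h3 t).2.2, (h3' t).2.2, e1, e2]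

/-- **Torus invariant vector fields on `𝕋^k × 𝕋`.** -/
theorem inv_fields {φ : ℝ → Fin k → ℝ} {v : ℝ → ℝ} (hφ : ContDiff ℝ 1 φ) (hv : ContDiff ℝ 1 v)
    (pφ : ∀ y, φ (y + 1) = φ y) (pv : ∀ y, v (y + 1) = v y) :
    ∀ᵐ a : ℝ, ∀ᵐ θ : Fin k → ℝ, ∃ Φ : Flow ℝ (Torus k × Circ),
      Generates (fun y => φ y + θ) (fun y => v y + a) Φ ∧
      (∀ Φ', Generates (fun y => φ y + θ) (fun y => v y + a) Φ' → Φ' = Φ) ∧
      FiniteFlowAttractors (volume : Measure (Torus k × Circ)) Φ := by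
  filter_upwards [ae_regular hv] with a ha
  have hw : ContDiff ℝ 1 fun y => v y + a := hv.add contDiff_const
  have pw : ∀ y, v (y + 1) + a = v y + a := fun y => by rw [pv]
  have hd : ∀ y, deriv (fun y => v y + a) y = deriv v y := fun y => deriv_add_const a
  obtain ⟨Φ, Ψ, ψ, hψ, hΨ, hgen, hsnd, htr⟩ := flows hφ hw pφ pw
  have hbase := circle_fin hψ hw pw (fun y hy => by rw [hd]; exact ha y hy) hΨ
  let _ := actFst k Circ
  have _ : ContinuousVAdd (Torus k) (Torus k × Circ) := ⟨by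
    change Continuous fun x : Torus k × (Torus k × Circ) => (x.1 + x.2.1, x.2.2)
    fun_prop⟩
  have hπ : IsOrbitMap k (Prod.snd : Torus k × Circ → Circ) := by
    refine ⟨continuous_snd, fun y => ⟨(0, y), rfl⟩, fun p q => ⟨fun h => ?_, ?_⟩⟩
    · refine ⟨q.1 - p.1, ?_⟩
      change (q.1 - p.1 + p.1, p.2) = q
      rw [sub_add_cancel, h]
    · rintro ⟨s, rfl⟩
      rfl
  have hmap : (volume : Measure (Torus k × Circ)).map Prod.snd = volume := by
    have : (volume : Measure (Torus k × Circ)) = (volume : Measure (Torus k)).prod volume := rfl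
    rw [this, Measure.map_snd_prod, measure_univ, one_smul]
  have hΦ : ∀ (t : ℝ) (s : Torus k) (p : Torus k × Circ), Φ t (s +ᵥ p) = s +ᵥ Φ t p := htr
  have hlift := flift_ae (volume : Measure (Torus k × Circ)) hΦ hπ hsnd (by rw [hmap]; exact hbase)
  filter_upwards [hlift] with θ hθ
  have hg : Generates (fun y => φ y + θ) (fun y => v y + a) (drift Φ hΦ θ) := by
    intro x y
    obtain ⟨ξ, η, h1, h2, h3⟩ := hgen x y
    refine ⟨fun t => ξ t + t • θ, η, by simp [h1], h2, fun t => ⟨?_, (h3 t).2.1, ?_⟩⟩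
    · have h4 := (h3 t).1.fun_add ((hasDerivAt_id' t).smul_const θ)
      simpa using h4
    · change (toTorus (t • θ) + (Φ t (toTorus x, (y : UnitAddCircle))).1,
        (Φ t (toTorus x, (y : UnitAddCircle))).2) = _
      rw [(h3 t).2.2, ← toTorus_add, add_comm]
  have hφ' : ContDiff ℝ 1 fun y => φ y + θ := hφ.add contDiff_const
  exact ⟨_, hg, fun Φ' h' => gen_unique hφ' hw (fun y => by rw [pφ]) pw hg h', hθ⟩

end Q85.PA
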