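import Pool.Agent.Q85.PA.I
import Mathlib.Dynamics.Flow

/-!
# Flows commuting with a torus action
-/

set_option linter.unusedSectionVars false

open MeasureTheory Set Filter Topology UnitAddTorus
open Pool.Agent.H728R2.OS

namespace Q85.PA

variable {k : ℕ}

section Defs

variable {X : Type*} [TopologicalSpace X]

/-- The `ω`-limit set of the forward orbit of `p` under a flow. -/
def omegaFlow (Φ : Flow ℝ X) (p : X) : Set X :=
  {q | ∀ U ∈ 𝓝 q, ∀ T : ℝ, ∃ t : ℝ, T ≤ t ∧ Φ t p ∈ U}

/-- `Λ` is an attractor of the flow: it is invariant, it contains a point whose forward orbit is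
dense in `Λ`, and its basin `{p | ω(p) ⊆ Λ}` has positive measure. -/
def IsFlowAttractor [MeasurableSpace X] (μ : Measure X) (Φ : Flow ℝ X) (Λ : Set X) : Prop :=
  (∀ t : ℝ, Φ t '' Λ = Λ) ∧ (∃ x ∈ Λ, Λ ⊆ closure ((fun t : ℝ => Φ t x) '' Ici 0)) ∧
    0 < μ {p | omegaFlow Φ p ⊆ Λ}

/-- The flow has finitely many attractors whose basins cover the space up to a null set. -/
def FiniteFlowAttractors [MeasurableSpace X] (μ : Measure X) (Φ : Flow ℝ X) : Prop :=
  ∃ (k : ℕ) (Λ : Fin k → Set X), (∀ i, IsFlowAttractor μ Φ (Λ i)) ∧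
    μ {p | ∀ i, ¬ omegaFlow Φ p ⊆ Λ i} = 0

end Defs

/-- A general density lemma. -/
theorem avoid_gen {Θ : Type*} [MeasurableSpace Θ] (m : Measure Θ) {E : Set Θ}
    (hfin : m E ≠ ⊤) (T : ℕ → Θ → Torus k) (hT : ∀ j, Measurable (T j))
    (hRL : ∀ v : Fin k → ℤ, v ≠ 0 →
      Tendsto (fun j => ∫ x in E, mFourier v (T j x) ∂m) atTop (𝓝 0))
    {U : Set (Torus k)} (hU : IsOpen U) (hne : U.Nonempty) {J : ℕ}
    (hav : ∀ j ≥ J, ∀ x ∈ E, T j x ∉ U) : m E = 0 := by
  have : IsFiniteMeasure (m.restrict E) := ⟨by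
    rw [Measure.restrict_apply_univ]
    exact lt_top_iff_ne_top.2 hfin⟩
  obtain ⟨u, hu⟩ := hne
  obtain ⟨q, hq0, hq1, hq⟩ := exists_continuous_zero_one_of_isClosed (X := Torus k)
    hU.isClosed_compl (isClosed_singleton (x := u))
    (disjoint_left.2 fun x hx hx' => hx (by rw [mem_singleton_iff.1 hx']; exact hu))
  have hqc : Continuous fun s : Torus k => ((q s : ℝ) : ℂ) :=
    Complex.continuous_ofReal.comp q.continuous
  let Q : C(Torus k, ℂ) := ⟨fun s => ((q s : ℝ) : ℂ), hqc⟩
  have hpos : 0 < ∫ s, q s := by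
    refine (q.continuous.integral_pos_of_hasCompactSupport_nonneg_nonzero
      (HasCompactSupport.of_compactSpace _) (fun s => (hq s).1) (x := u) ?_)
    rw [hq1 (mem_singleton u)]
    simp
  have hint : ∀ (j : ℕ) (x : C(Torus k, ℂ)), Integrable (fun θ => x (T j θ)) (m.restrict E) := by
    intro j x
    refine Integrable.of_bound (C := ‖x‖) ?_ (Eventually.of_forall fun θ => x.norm_coe_le_norm _)
    exact (x.continuous.measurable.comp (hT j)).aestronglyMeasurable
  have hi : ∀ x : C(Torus k, ℂ), Integrable (fun s => x s) := fun x =>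
    x.continuous.integrable_of_hasCompactSupport (HasCompactSupport.of_compactSpace _)
  have hspan : ∀ P ∈ Submodule.span ℂ (range (mFourier (d := Fin k))),
      Tendsto (fun j => ∫ x in E, P (T j x) ∂m) atTop (𝓝 ((m.real E : ℂ) * ∫ s, P s)) := by
    intro P hP
    induction hP using Submodule.span_induction with
    | mem x h =>
      obtain ⟨v, rfl⟩ := h
      by_cases hv : v = 0
      · subst hv
        simp only [mFourier_zero, ContinuousMap.one_apply]
        simp
      · rw [mF_int hv, mul_zero]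
        exact hRL v hv
    | zero => simp
    | add x y _ _ hx hy =>
      have h1 := hx.add hy
      have e1 : (fun j => ∫ s in E, (x + y) (T j s) ∂m) =
          fun j => (∫ s in E, x (T j s) ∂m) + ∫ s in E, y (T j s) ∂m := by
        funext j
        rw [← integral_add (hint j x) (hint j y)]
        rfl
      have e2 : ∫ s : Torus k, (x + y) s = (∫ s, x s) + ∫ s, y s := by
        rw [← integral_add (hi x) (hi y)]
        rfl
      rw [e1, e2, mul_add]
      exact h1
    | smul a x _ hx =>
      have e1 : (fun j => ∫ s in E, (a • x) (T j s) ∂m) =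
          fun j => a * (∫ s in E, x (T j s) ∂m) := by
        funext j
        rw [← integral_const_mul]
        rfl
      have e2 : ∫ s : Torus k, (a • x) s = a * ∫ s, x s := by
        rw [← integral_const_mul]
        rfl
      rw [e1, e2, mul_left_comm]
      exact hx.const_mul a
  have hkey : ∀ ε : ℝ, 0 < ε → m.real E * ∫ s, q s ≤ 2 * ε * m.real E := by
    intro ε hε
    obtain ⟨P, hP, hQP⟩ := poly_approx Q hε
    have hl := hspan P hP
    have hb : ∀ᶠ j in atTop, ‖∫ s in E, P (T j s) ∂m‖ ≤ ε * m.real E := by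
      filter_upwards [eventually_ge_atTop J] with j hj
      have h1 : ∀ s ∈ E, ‖P (T j s)‖ ≤ ε := by
        intro s hs
        have h2 := hQP (T j s)
        have h3 : Q (T j s) = 0 := by
          change ((q (T j s) : ℝ) : ℂ) = 0
          rw [hq0 (hav j hj s hs)]
          simp
        rwa [h3, zero_sub, norm_neg] at h2
      exact norm_setIntegral_le_of_norm_le_const (lt_top_iff_ne_top.2 hfin) h1
    have h5 : ‖(m.real E : ℂ) * ∫ s, P s‖ ≤ ε * m.real E := le_of_tendsto hl.norm hb
    have h6 : ‖(∫ s, Q s) - ∫ s, P s‖ ≤ ε := by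
      rw [← integral_sub]
      · have := norm_integral_le_of_norm_le_const (μ := (volume : Measure (Torus k)))
          (f := fun s => Q s - P s) (C := ε) (Eventually.of_forall fun s => hQP s)
        simpa using this
      · exact hi Q
      · exact hi P
    have h7 : (∫ s, Q s) = ((∫ s, q s : ℝ) : ℂ) := integral_ofReal
    have hm : 0 ≤ m.real E := measureReal_nonneg
    have h8 : ‖(m.real E : ℂ) * ∫ s, Q s‖ ≤ 2 * ε * m.real E := by
      have e : (m.real E : ℂ) * ∫ s, Q s = (m.real E : ℂ) * ((∫ s, Q s) - ∫ s, P s) +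
          (m.real E : ℂ) * ∫ s, P s := by ring
      rw [e]
      refine (norm_add_le _ _).trans ?_
      have h9 : ‖(m.real E : ℂ) * ((∫ s, Q s) - ∫ s, P s)‖ ≤ m.real E * ε := by
        rw [norm_mul, Complex.norm_real, Real.norm_eq_abs, abs_of_nonneg hm]
        exact mul_le_mul_of_nonneg_left h6 hm
      linarith
    rw [h7, ← Complex.ofReal_mul, Complex.norm_real, Real.norm_eq_abs] at h8
    exact (le_abs_self _).trans h8
  have h10 : m.real E = 0 := by
    have h0 : 0 ≤ m.real E := measureReal_nonneg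
    by_contra hne
    have h11 : 0 < m.real E := lt_of_le_of_ne h0 (Ne.symm hne)
    have h12 := hkey ((∫ s, q s) / 4) (by positivity)
    nlinarith [mul_pos h11 hpos]
  exact (measureReal_eq_zero_iff hfin).1 h10

theorem toTorus_cont : Continuous (toTorus (d := k)) := by
  unfold toTorus
  fun_prop

theorem mF_line (v : Fin k → ℤ) (t : ℝ) (θ : Fin k → ℝ) :
    mFourier v (toTorus (t • θ)) =
      Complex.exp (2 * Real.pi * Complex.I * ((t * ∑ i, (v i : ℝ) * θ i : ℝ) : ℂ)) := by
  rw [mF_apply]
  have : ∑ i, v i • (toTorus (t • θ)) i = ((t * ∑ i, (v i : ℝ) * θ i : ℝ) : UnitAddCircle) := by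
    have h1 : ∀ i, v i • (toTorus (t • θ)) i = ((t * ((v i : ℝ) * θ i) : ℝ) : UnitAddCircle) := by
      intro i
      simp only [toTorus, Pi.smul_apply, smul_eq_mul]
      rw [← AddCircle.coe_zsmul, zsmul_eq_mul]
      congr 1
      ring
    simp_rw [h1]
    rw [Finset.mul_sum]
    exact (map_sum (QuotientAddGroup.mk' (AddSubgroup.zmultiples (1:ℝ)))
      (fun i => t * ((v i : ℝ) * θ i)) Finset.univ).symm
  rw [this, AddCircle.toCircle_apply_mk, Circle.coe_exp]
  congr 1
  push_cast
  ring

theorem rl_line {E : Set (Fin k → ℝ)} (hE : MeasurableSet E) (c : ℕ → Torus k) {t : ℕ → ℝ}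
    (ht : Tendsto t atTop atTop) {v : Fin k → ℤ} (hv : v ≠ 0) :
    Tendsto (fun j => ∫ θ in E, mFourier v (c j + toTorus (t j • θ))) atTop (𝓝 0) := by
  let w : StrongDual ℝ (Fin k → ℝ) :=
    -∑ i, (v i : ℝ) • (ContinuousLinearMap.proj i : (Fin k → ℝ) →L[ℝ] ℝ)
  have hw : ∀ θ, -(w θ) = ∑ i, (v i : ℝ) * θ i := by
    intro θ
    simp [w]
  have hw0 : w ≠ 0 := by
    intro h
    apply hv
    funext i
    have h1 := hw (Pi.single i 1)
    rw [h] at h1
    simp [Pi.single_apply] at h1
    have h2 : v i = 0 := by exact_mod_cast h1.symm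
    exact h2
  have hco : Tendsto (fun j => t j • w) atTop (cocompact (StrongDual ℝ (Fin k → ℝ))) := by
    apply tendsto_cocompact_of_tendsto_dist_comp_atTop (0 : StrongDual ℝ (Fin k → ℝ))
    have h1 : (fun j => dist (t j • w) 0) = fun j => |t j| * ‖w‖ := by
      funext j
      rw [dist_zero_right, norm_smul, Real.norm_eq_abs]
    rw [h1]
    exact (tendsto_abs_atTop_atTop.comp ht).atTop_mul_const (norm_pos_iff.2 hw0)
  have h2 := (tendsto_integral_exp_smul_cocompact (E.indicator fun _ : Fin k → ℝ => (1:ℂ))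
    (volume : Measure (Fin k → ℝ))).comp hco
  rw [tendsto_zero_iff_norm_tendsto_zero] at h2 ⊢
  refine h2.congr fun j => ?_
  have e1 : ∫ θ in E, mFourier v (c j + toTorus (t j • θ)) =
      mFourier v (c j) * ∫ θ, E.indicator (fun θ => mFourier v (toTorus (t j • θ))) θ := by
    rw [integral_indicator hE, ← integral_const_mul]
    refine integral_congr_ae (Eventually.of_forall fun θ => ?_)
    simp only
    rw [mF_add]
  rw [e1, norm_mul, mF_norm, one_mul]
  congr 1
  refine integral_congr_ae (Eventually.of_forall fun θ => ?_)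
  simp only [Function.comp_apply]
  by_cases hθ : θ ∈ E
  · rw [indicator_of_mem hθ, indicator_of_mem hθ, mF_line]
    rw [Circle.smul_def, smul_eq_mul, mul_one, Real.fourierChar_apply]
    congr 1
    have : -((t j • w) θ) = t j * ∑ i, (v i : ℝ) * θ i := by
      rw [← hw, _root_.smul_apply, smul_eq_mul]
      ring
    rw [this]
    push_cast
    ring
  · rw [indicator_of_notMem hθ, indicator_of_notMem hθ]
    simp

/-- For almost every `θ` the sequence `c j + t j θ` is dense in the torus, with all its tails. -/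
theorem ae_dense_line (c : ℕ → Torus k) {t : ℕ → ℝ} (ht : Tendsto t atTop atTop) :
    ∀ᵐ θ : Fin k → ℝ, ∀ U : Set (Torus k), IsOpen U → U.Nonempty → ∀ J : ℕ,
      ∃ j ≥ J, c j + toTorus (t j • θ) ∈ U := by
  have hb := TopologicalSpace.isBasis_countableBasis (Torus k)
  have hc : ∀ j, Continuous fun θ : Fin k → ℝ => c j + toTorus (t j • θ) := fun j =>
    continuous_const.add (toTorus_cont.comp (continuous_const_smul _))
  have h1 : ∀ᵐ θ : Fin k → ℝ, ∀ U ∈ TopologicalSpace.countableBasis (Torus k), ∀ J R : ℕ,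
      U.Nonempty → ‖θ‖ ≤ R → ∃ j ≥ J, c j + toTorus (t j • θ) ∈ U := by
    rw [ae_ball_iff (TopologicalSpace.countable_countableBasis _)]
    intro U hU
    rw [ae_all_iff]
    intro J
    rw [ae_all_iff]
    intro R
    by_cases hne : U.Nonempty
    · set E : Set (Fin k → ℝ) :=
        Metric.closedBall 0 R ∩ {θ | ∀ j ≥ J, c j + toTorus (t j • θ) ∉ U} with hEd
      have hEc : IsClosed E := by
        have : E = Metric.closedBall 0 R ∩
            ⋂ j : ℕ, ⋂ _ : j ≥ J, {θ | c j + toTorus (t j • θ) ∈ U}ᶜ := by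
          ext θ
          simp [hEd]
        rw [this]
        refine Metric.isClosed_closedBall.inter
          (isClosed_iInter fun j => isClosed_iInter fun _ => ?_)
        exact ((hb.isOpen hU).preimage (hc j)).isClosed_compl
      have hfin : volume E ≠ ⊤ :=
        ((measure_mono inter_subset_left).trans_lt measure_closedBall_lt_top).ne
      have h2 := avoid_gen volume hfin (fun j θ => c j + toTorus (t j • θ))
        (fun j => (hc j).measurable) (fun v hv => rl_line hEc.measurableSet c ht hv)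
        (hb.isOpen hU) hne (J := J) (fun j hj θ hθ => hθ.2 j hj)
      rw [ae_iff]
      refine measure_mono_null ?_ h2
      intro θ hθ
      rw [mem_ofPred_eq] at hθ
      push Not at hθ
      exact ⟨by simpa using hθ.2.1, hθ.2.2⟩
    · exact Eventually.of_forall fun θ h => absurd h hne
  filter_upwards [h1] with θ hθ U hU hne J
  obtain ⟨x, hx⟩ := hne
  obtain ⟨V, hV, hxV, hVU⟩ := hb.exists_subset_of_mem_open hx hU
  obtain ⟨R, hR⟩ := exists_nat_ge ‖θ‖
  obtain ⟨j, hj, hm⟩ := hθ V hV J R ⟨x, hxV⟩ hR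
  exact ⟨j, hj, hVU hm⟩

end Q85.PA
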