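import Pool.Agent.Q85.PA.D

/-!
# Homeomorphisms normalising a torus action: attractors lift for almost every translation
-/

open MeasureTheory Set Filter Topology UnitAddTorus
open Pool.Agent.H728R2.OS Pool.Agent.H728R2.FA

namespace Q85.PA

variable {k : ℕ}

theorem mulT_surj {A : Matrix (Fin k) (Fin k) ℤ} (hA : A.det ≠ 0) :
    Function.Surjective (mulT A) := by
  intro t
  have h1 : ∀ i, ∃ z : ℝ, (z : UnitAddCircle) = t i := fun i =>
    QuotientAddGroup.mk_surjective (t i)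
  choose z hz using h1
  have hd : (A.det : ℝ) ≠ 0 := by exact_mod_cast hA
  let u : Torus k := fun i => ((z i / A.det : ℝ) : UnitAddCircle)
  refine ⟨mulT A.adjugate u, ?_⟩
  rw [← mulT_mul, Matrix.mul_adjugate]
  funext i
  simp only [mulT, Matrix.smul_apply, Matrix.one_apply, smul_eq_mul, mul_ite, mul_one, mul_zero,
    ite_smul, zero_smul, Finset.sum_ite_eq, Finset.mem_univ, if_true]
  rw [← hz i]
  simp only [u]
  rw [← AddCircle.coe_zsmul, zsmul_eq_mul, mul_div_cancel₀ _ hd]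

section Act

variable {M Y : Type*} [MetricSpace M] [CompactSpace M] [MetricSpace Y]
  [AddAction (Torus k) M] [ContinuousVAdd (Torus k) M]

/-- `π` is the quotient map of the action of the torus. -/
structure IsOrbitMap (k : ℕ) {M Y : Type*} [TopologicalSpace M] [TopologicalSpace Y]
    [AddAction (Torus k) M] (π : M → Y) : Prop where
  cont : Continuous π
  surj : Function.Surjective π
  fib : ∀ p q : M, π p = π q ↔ ∃ s : Torus k, s +ᵥ p = q

theorem IsOrbitMap.pi_vadd {π : M → Y} (h : IsOrbitMap k π) (s : Torus k) (p : M) :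
    π (s +ᵥ p) = π p := ((h.fib p (s +ᵥ p)).2 ⟨s, rfl⟩).symm

theorem IsOrbitMap.isOpenMap {π : M → Y} (h : IsOrbitMap k π) : IsOpenMap π := by
  intro U hU
  let W : Set M := ⋃ s : Torus k, (fun p => s +ᵥ p) ⁻¹' U
  have hW : IsOpen W := isOpen_iUnion fun s => hU.preimage (continuous_const_vadd s)
  have h1 : (π '' U)ᶜ = π '' Wᶜ := by
    ext y
    constructor
    · intro hy
      obtain ⟨p, rfl⟩ := h.surj y
      refine ⟨p, fun hp => hy ?_, rfl⟩
      obtain ⟨s, hs⟩ := mem_iUnion.1 hp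
      exact ⟨s +ᵥ p, hs, h.pi_vadd s p⟩
    · rintro ⟨p, hp, rfl⟩ ⟨q, hq, hqp⟩
      obtain ⟨s, hs⟩ := (h.fib p q).1 hqp.symm
      exact hp (mem_iUnion.2 ⟨s, by
        rw [mem_preimage, hs]
        exact hq⟩)
  have h2 : IsClosed (π '' U)ᶜ := by
    rw [h1]
    exact (hW.isClosed_compl.isCompact.image h.cont).isClosed
  exact isClosed_compl_iff.1 h2

/-- The translated map. -/
def tr (f : M → M) (θ : Torus k) : M → M := fun p => θ +ᵥ f p

theorem iter_tr {A : Matrix (Fin k) (Fin k) ℤ} {f : M → M}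
    (hf : ∀ (s : Torus k) (p : M), f (s +ᵥ p) = mulT A s +ᵥ f p) (θ : Torus k) (p : M) (n : ℕ) :
    (tr f θ)^[n] p = mulT (psum A n) θ +ᵥ f^[n] p := by
  induction n with
  | zero => simp [psum, mulT_zero]
  | succ n ih =>
    rw [Function.iterate_succ_apply', ih, Function.iterate_succ_apply']
    simp only [tr]
    rw [hf, psum_succ, mulT_add, mulT_one, mulT_mul, add_vadd]

theorem iter_vadd {A : Matrix (Fin k) (Fin k) ℤ} {F : M → M}
    (hF : ∀ (s : Torus k) (p : M), F (s +ᵥ p) = mulT A s +ᵥ F p) (s : Torus k) (p : M) (n : ℕ) :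
    F^[n] (s +ᵥ p) = mulT (A ^ n) s +ᵥ F^[n] p := by
  induction n with
  | zero => simp [mulT_one]
  | succ n ih =>
    rw [Function.iterate_succ_apply', ih, hF, Function.iterate_succ_apply', ← mulT_mul,
      ← pow_succ']

theorem tr_vadd {A : Matrix (Fin k) (Fin k) ℤ} {f : M → M}
    (hf : ∀ (s : Torus k) (p : M), f (s +ᵥ p) = mulT A s +ᵥ f p) (θ s : Torus k) (p : M) :
    tr f θ (s +ᵥ p) = mulT A s +ᵥ tr f θ p := by
  simp only [tr, hf]
  rw [vadd_vadd, vadd_vadd, add_comm]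

theorem recur {g : Y ≃ₜ Y} {Λ : Set Y} (hinv : g '' Λ = Λ) {y : Y} (hy : y ∈ Λ)
    (hd : Λ ⊆ closure (range fun n : ℕ => g^[n] y)) :
    MapClusterPt y atTop fun n : ℕ => g^[n] y := by
  rw [mapClusterPt_iff_frequently]
  intro U hU
  rw [frequently_atTop]
  intro N
  have h1 : ∀ N : ℕ, ∃ z ∈ Λ, g^[N] z = y := by
    intro N
    induction N with
    | zero => exact ⟨y, hy, rfl⟩
    | succ N ih =>
      obtain ⟨z, hz, h⟩ := ih
      rw [← hinv] at hz
      obtain ⟨w, hw, rfl⟩ := hz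
      exact ⟨w, hw, by rw [Function.iterate_succ_apply]; exact h⟩
  obtain ⟨z, hz, h⟩ := h1 N
  have hc : Continuous (g^[N]) := g.continuous.iterate N
  have hU' : g^[N] ⁻¹' U ∈ 𝓝 z := hc.continuousAt.preimage_mem_nhds (by rw [h]; exact hU)
  obtain ⟨w, hw, ⟨n, rfl⟩⟩ := mem_closure_iff_nhds.1 (hd hz) _ hU'
  refine ⟨N + n, by omega, ?_⟩
  rw [Function.iterate_add_apply]
  exact hw

theorem near_fibre {π : M → Y} (h : IsOrbitMap k π) (p₀ : M) {q : ℕ → M}
    (hq : Tendsto (fun j => π (q j)) atTop (𝓝 (π p₀))) :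
    ∃ c : ℕ → Torus k, Tendsto (fun j => dist (q j) (c j +ᵥ p₀)) atTop (𝓝 0) := by
  have h1 : ∀ j, ∃ s : Torus k, ∀ t : Torus k, dist (q j) (s +ᵥ p₀) ≤ dist (q j) (t +ᵥ p₀) := by
    intro j
    have hc : Continuous fun s : Torus k => dist (q j) (s +ᵥ p₀) :=
      continuous_const.dist (continuous_id.vadd continuous_const)
    obtain ⟨s, _, hs⟩ := isCompact_univ.exists_isMinOn (univ_nonempty (α := Torus k))
      hc.continuousOn
    exact ⟨s, fun t => hs (mem_univ t)⟩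
  choose c hc using h1
  refine ⟨c, ?_⟩
  rw [Metric.tendsto_atTop]
  intro ε hε
  let K : Set M := {q | ∀ s : Torus k, ε ≤ dist q (s +ᵥ p₀)}
  have hK : IsClosed K := by
    have : K = ⋂ s : Torus k, {q | ε ≤ dist q (s +ᵥ p₀)} := by
      ext q
      simp [K]
    rw [this]
    exact isClosed_iInter fun s => isClosed_le continuous_const (by fun_prop)
  have hK2 : IsClosed (π '' K) := (hK.isCompact.image h.cont).isClosed
  have hnot : π p₀ ∉ π '' K := by
    rintro ⟨q, hq, hqp⟩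
    obtain ⟨s, hs⟩ := (h.fib p₀ q).1 hqp.symm
    have := hq s
    rw [hs, dist_self] at this
    linarith
  have h2 := hq.eventually (hK2.isOpen_compl.mem_nhds hnot)
  obtain ⟨N, hN⟩ := eventually_atTop.1 h2
  refine ⟨N, fun j hj => ?_⟩
  have h3 : q j ∉ K := fun h4 => hN j hj ⟨q j, h4, rfl⟩
  have h5 : ∃ s : Torus k, dist (q j) (s +ᵥ p₀) < ε := by
    by_contra hcon
    push Not at hcon
    exact h3 hcon
  obtain ⟨s, hs⟩ := h5
  rw [Real.dist_eq, sub_zero, abs_of_nonneg dist_nonneg]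
  exact (hc j s).trans_lt hs

variable {A : Matrix (Fin k) (Fin k) ℤ} (hA : A.det ≠ 0)
  (hA' : ∀ m : ℕ, 1 ≤ m → (psum A m).det ≠ 0)

include hA hA' in
/-- For almost every `θ` the forward orbit of `p₀` under the translated map accumulates at the
whole orbit of `p₀` under the torus. -/
theorem ae_closure {f : M → M} (hf : ∀ (s : Torus k) (p : M), f (s +ᵥ p) = mulT A s +ᵥ f p)
    {g : Y ≃ₜ Y} {π : M → Y} (h : IsOrbitMap k π) (hfg : ∀ p, π (f p) = g (π p)) (p₀ : M)
    (hr : MapClusterPt (π p₀) atTop fun n : ℕ => g^[n] (π p₀)) :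
    ∀ᵐ θ : Torus k, ∀ s : Torus k, s +ᵥ p₀ ∈ closure (range fun n : ℕ => (tr f θ)^[n] p₀) := by
  obtain ⟨ψ, hψ, hlim⟩ := hr.tendsto_subseq
  have hit : ∀ n, π (f^[n] p₀) = g^[n] (π p₀) := by
    intro n
    induction n with
    | zero => rfl
    | succ n ih => rw [Function.iterate_succ_apply', hfg, ih, Function.iterate_succ_apply']
  have hlim2 : Tendsto (fun j => π (f^[ψ j] p₀)) atTop (𝓝 (π p₀)) := by
    simp_rw [hit]
    exact hlim
  obtain ⟨c, hc⟩ := near_fibre h p₀ hlim2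
  have hB : ∀ v : Fin k → ℤ, v ≠ 0 →
      Tendsto (fun j => Matrix.vecMul v (psum A (ψ j))) atTop cofinite := by
    intro v hv
    have h1 := (psum_inj hA hA' hv).comp hψ.injective
    have h2 := h1.tendsto_cofinite
    rw [Nat.cofinite_eq_atTop] at h2
    exact h2
  filter_upwards [ae_dense c (fun j => psum A (ψ j)) hB] with θ hθ s
  rw [Metric.mem_closure_iff]
  intro ε hε
  have huc : UniformContinuous fun x : Torus k × M => x.1 +ᵥ x.2 :=
    CompactSpace.uniformContinuous_of_continuous continuous_vadd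
  obtain ⟨δ, hδ, hδ'⟩ := Metric.uniformContinuous_iff.1 huc (ε / 2) (by positivity)
  have hcc : Continuous fun u : Torus k => dist (u +ᵥ p₀) (s +ᵥ p₀) :=
    (continuous_id.vadd continuous_const).dist continuous_const
  have hU : IsOpen {u : Torus k | dist (u +ᵥ p₀) (s +ᵥ p₀) < ε / 2} :=
    isOpen_lt hcc continuous_const
  have hne : {u : Torus k | dist (u +ᵥ p₀) (s +ᵥ p₀) < ε / 2}.Nonempty :=
    ⟨s, by
      rw [mem_ofPred_eq, dist_self]
      positivity⟩
  obtain ⟨J, hJ⟩ := Metric.tendsto_atTop.1 hc δ hδ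
  obtain ⟨j, hj, hm⟩ := hθ _ hU hne J
  refine ⟨_, ⟨ψ j, rfl⟩, ?_⟩
  simp only
  rw [iter_tr hf]
  rw [mem_ofPred_eq] at hm
  have h3 := hJ j hj
  rw [Real.dist_eq, sub_zero, abs_of_nonneg dist_nonneg] at h3
  have h4 : dist (mulT (psum A (ψ j)) θ +ᵥ f^[ψ j] p₀)
      (mulT (psum A (ψ j)) θ +ᵥ (c j +ᵥ p₀)) < ε / 2 :=
    hδ' (a := (mulT (psum A (ψ j)) θ, f^[ψ j] p₀)) (b := (mulT (psum A (ψ j)) θ, c j +ᵥ p₀)) (by
      rw [Prod.dist_eq, dist_self]
      exact max_lt hδ h3)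
  rw [vadd_vadd, add_comm _ (c j)] at h4
  calc dist (s +ᵥ p₀) (mulT (psum A (ψ j)) θ +ᵥ f^[ψ j] p₀)
      ≤ dist (s +ᵥ p₀) ((c j + mulT (psum A (ψ j)) θ) +ᵥ p₀) +
        dist ((c j + mulT (psum A (ψ j)) θ) +ᵥ p₀) (mulT (psum A (ψ j)) θ +ᵥ f^[ψ j] p₀) :=
        dist_triangle _ _ _
    _ < ε / 2 + ε / 2 := by
        refine add_lt_add ?_ ?_
        · rw [dist_comm]
          exact hm
        · rw [dist_comm]
          exact h4
    _ = ε := by ring

include hA hA' in
/-- For almost every `θ` the preimage of an invariant transitive set is transitive. -/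
theorem ae_trans {f : M → M} (hfc : Continuous f)
    (hf : ∀ (s : Torus k) (p : M), f (s +ᵥ p) = mulT A s +ᵥ f p)
    {g : Y ≃ₜ Y} {π : M → Y} (h : IsOrbitMap k π) (hfg : ∀ p, π (f p) = g (π p)) {Λ : Set Y}
    (hinv : g '' Λ = Λ) {y : Y} (hy : y ∈ Λ) (hd : Λ ⊆ closure (range fun n : ℕ => g^[n] y)) :
    ∀ᵐ θ : Torus k, ∃ p ∈ π ⁻¹' Λ, π ⁻¹' Λ ⊆ closure (range fun n : ℕ => (tr f θ)^[n] p) := by
  obtain ⟨p₀, rfl⟩ := h.surj y
  filter_upwards [ae_closure hA hA' hf h hfg p₀ (recur hinv hy hd)] with θ hθ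
  refine ⟨p₀, hy, ?_⟩
  have hFc : Continuous (tr f θ) := (continuous_const_vadd θ).comp hfc
  have hF := tr_vadd hf θ
  have hit : ∀ n, π ((tr f θ)^[n] p₀) = g^[n] (π p₀) := by
    intro n
    induction n with
    | zero => rfl
    | succ n ih =>
      rw [Function.iterate_succ_apply', Function.iterate_succ_apply', ← ih, ← hfg]
      exact h.pi_vadd θ _
  have h1 : π ⁻¹' (range fun n : ℕ => g^[n] (π p₀)) ⊆
      closure (range fun n : ℕ => (tr f θ)^[n] p₀) := by
    rintro q ⟨m, hm⟩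
    have hm' : π ((tr f θ)^[m] p₀) = π q := by
      rw [hit]
      exact hm
    obtain ⟨s, hs⟩ := (h.fib _ _).1 hm'
    obtain ⟨t, ht⟩ := mulT_surj (A := A ^ m) (by
      rw [Matrix.det_pow]
      exact pow_ne_zero _ hA) s
    have e : q = (tr f θ)^[m] (t +ᵥ p₀) := by
      rw [iter_vadd hF, ht, hs]
    rw [e]
    have h2 := image_closure_subset_closure_image (s := range fun n : ℕ => (tr f θ)^[n] p₀)
      (hFc.iterate m)
    have h3 := h2 (mem_image_of_mem _ (hθ t))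
    refine closure_mono ?_ h3
    rintro _ ⟨_, ⟨n, rfl⟩, rfl⟩
    exact ⟨m + n, by simp only; rw [Function.iterate_add_apply]⟩
  calc π ⁻¹' Λ ⊆ π ⁻¹' closure (range fun n : ℕ => g^[n] (π p₀)) := preimage_mono hd
    _ ⊆ closure (π ⁻¹' (range fun n : ℕ => g^[n] (π p₀))) :=
        h.isOpenMap.preimage_closure_subset_closure_preimage
    _ ⊆ closure (range fun n : ℕ => (tr f θ)^[n] p₀) := closure_minimal h1 isClosed_closure

end Act

end Q85.PA
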