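import Pool.Agent.Q85.PA.G

/-!
# Finitely many attractors for almost every translate
-/

set_option linter.unusedSectionVars false

open MeasureTheory Set Filter Topology UnitAddTorus
open Pool.Agent.H728R2.OS Pool.Agent.H728R2.FA

namespace Q85.PA

variable {k : ℕ}

theorem omega_mem {X : Type*} [TopologicalSpace X] {g : X → X} {y q : X}
    (h : q ∈ omegaLim g y) {C : Set X} (hC : IsClosed C) {N : ℕ} (hN : ∀ n ≥ N, g^[n] y ∈ C) :
    q ∈ C := by
  by_contra hq
  obtain ⟨n, hn, hm⟩ := h _ (hC.isOpen_compl.mem_nhds hq) N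
  exact hm (hN n hn)

theorem basin_iff {Y : Type*} [MetricSpace Y] [CompactSpace Y] {g : Y → Y} {K : Set Y}
    (hK : IsClosed K) (y : Y) :
    omegaLim g y ⊆ K ↔ ∀ m : ℕ, ∃ N : ℕ, ∀ n ≥ N, g^[n] y ∈ Metric.thickening (1 / ((m:ℝ) + 1)) K := by
  constructor
  · intro h m
    by_contra hcon
    push Not at hcon
    have hfr : ∃ᶠ n in atTop, g^[n] y ∈ (Metric.thickening (1 / ((m:ℝ) + 1)) K)ᶜ := by
      rw [frequently_atTop]
      intro N
      obtain ⟨n, hn, hm⟩ := hcon N
      exact ⟨n, hn, hm⟩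
    have hcomp : IsCompact (Metric.thickening (1 / ((m:ℝ) + 1)) K)ᶜ :=
      (Metric.isOpen_thickening.isClosed_compl).isCompact
    obtain ⟨q, hq, hqc⟩ := hcomp.exists_mapClusterPt_of_frequently hfr
    rw [mapClusterPt_iff_frequently] at hqc
    have hqo : q ∈ omegaLim g y := by
      intro U hU N
      obtain ⟨n, hn, hm⟩ := frequently_atTop.1 (hqc U hU) N
      exact ⟨n, hn, hm⟩
    exact hq (Metric.self_subset_thickening (by positivity) K (h hqo))
  · intro h q hq
    rw [← hK.closure_eq, Metric.closure_eq_iInter_cthickening]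
    simp only [mem_iInter]
    intro δ hδ
    obtain ⟨m, hm⟩ := exists_nat_one_div_lt hδ
    obtain ⟨N, hN⟩ := h m
    refine omega_mem hq Metric.isClosed_cthickening (N := N) fun n hn => ?_
    exact Metric.thickening_subset_cthickening_of_le hm.le K (hN n hn)

theorem basin_meas {Y : Type*} [MetricSpace Y] [CompactSpace Y] [MeasurableSpace Y] [BorelSpace Y]
    {g : Y → Y} (hg : Continuous g) {K : Set Y} (hK : IsClosed K) :
    MeasurableSet {y | omegaLim g y ⊆ K} := by
  have : {y | omegaLim g y ⊆ K} = ⋂ m : ℕ, ⋃ N : ℕ, ⋂ n : ℕ, ⋂ _ : n ≥ N,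
      g^[n] ⁻¹' Metric.thickening (1 / ((m:ℝ) + 1)) K := by
    ext y
    simp only [mem_ofPred_eq, mem_iInter, mem_iUnion, mem_preimage]
    exact basin_iff hK y
  rw [this]
  refine MeasurableSet.iInter fun m => MeasurableSet.iUnion fun N => MeasurableSet.iInter fun n =>
    MeasurableSet.iInter fun _ => ?_
  exact (Metric.isOpen_thickening.preimage (hg.iterate n)).measurableSet

/-- The closure of an attractor is an attractor. -/
theorem attractor_closure {Y : Type*} [TopologicalSpace Y] [MeasurableSpace Y] {μ : Measure Y}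
    {g : Y ≃ₜ Y} {Λ : Set Y} (h : IsAttractor μ g Λ) : IsAttractor μ g (closure Λ) := by
  obtain ⟨h1, ⟨x, hx, h2⟩, h3⟩ := h
  refine ⟨?_, ⟨x, subset_closure hx, closure_minimal h2 isClosed_closure⟩,
    h3.trans_le (measure_mono fun p hp => hp.trans subset_closure)⟩
  have : g '' closure Λ = closure (g '' Λ) := g.image_closure Λ
  rw [this, h1]

section Act

variable {M Y : Type*} [MetricSpace M] [CompactSpace M] [MeasurableSpace M] [BorelSpace M]
  [MetricSpace Y] [CompactSpace Y] [MeasurableSpace Y] [BorelSpace Y]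
  [AddAction (Torus k) M] [ContinuousVAdd (Torus k) M]

theorem omega_pi {f : M → M} {g : Y → Y} {π : M → Y} (hc : Continuous π)
    (hfg : ∀ p, π (f p) = g (π p)) (p : M) {q : M} (hq : q ∈ omegaLim f p) :
    π q ∈ omegaLim g (π p) := by
  have hit : ∀ n, π (f^[n] p) = g^[n] (π p) := by
    intro n
    induction n with
    | zero => rfl
    | succ n ih => rw [Function.iterate_succ_apply', hfg, ih, Function.iterate_succ_apply']
  intro U hU N
  obtain ⟨n, hn, hm⟩ := hq (π ⁻¹' U) (hc.continuousAt.preimage_mem_nhds hU) N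
  exact ⟨n, hn, by rw [← hit]; exact hm⟩

/-- **Torus actions.** If the homeomorphism induced on the orbit space has finitely many attractors
covering almost everything, then so has almost every translate of `f`. -/
theorem lift_ae {A : Matrix (Fin k) (Fin k) ℤ} (hA : A.det ≠ 0)
    (hA' : ∀ m : ℕ, 1 ≤ m → (psum A m).det ≠ 0) (μ : Measure M) (f : M ≃ₜ M)
    (hf : ∀ (s : Torus k) (p : M), f (s +ᵥ p) = mulT A s +ᵥ f p)
    (g : Y ≃ₜ Y) (π : M → Y) (h : IsOrbitMap k π) (hfg : ∀ p, π (f p) = g (π p))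
    (hg : FiniteAttractors (μ.map π) g) :
    ∀ᵐ θ : Torus k, FiniteAttractors μ (tr f θ) := by
  obtain ⟨l, Λ, h1, h2⟩ := hg
  have h3 : ∀ᵐ θ : Torus k, ∀ i : Fin l, ∃ p ∈ π ⁻¹' closure (Λ i),
      π ⁻¹' closure (Λ i) ⊆ closure (range fun n : ℕ => (tr f θ)^[n] p) := by
    rw [ae_all_iff]
    intro i
    obtain ⟨e1, ⟨y, hy, e2⟩, _⟩ := attractor_closure (h1 i)
    exact ae_trans hA hA' f.continuous hf h hfg e1 hy e2
  filter_upwards [h3] with θ hθ
  have hpi : ∀ p, π (tr f θ p) = g (π p) := fun p => by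
    rw [← hfg]
    exact h.pi_vadd θ _
  have hb : ∀ i, π ⁻¹' {y | omegaLim g y ⊆ closure (Λ i)} ⊆
      {p | omegaLim (tr f θ) p ⊆ π ⁻¹' closure (Λ i)} := by
    intro i p hp q hq
    exact hp (omega_pi h.cont hpi p hq)
  refine ⟨l, fun i => π ⁻¹' closure (Λ i), fun i => ⟨?_, hθ i, ?_⟩, ?_⟩
  · have e1 := (attractor_closure (h1 i)).1
    apply Subset.antisymm
    · rintro _ ⟨p, hp, rfl⟩
      rw [mem_preimage, hpi, ← e1]
      exact mem_image_of_mem _ hp
    · intro q hq
      rw [mem_preimage, ← e1] at hq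
      obtain ⟨y, hy, hyq⟩ := hq
      refine ⟨f.symm (-θ +ᵥ q), ?_, ?_⟩
      · have e2 : g (π (f.symm (-θ +ᵥ q))) = π q := by
          rw [← hfg, f.apply_symm_apply]
          exact h.pi_vadd _ _
        have e3 : π (f.symm (-θ +ᵥ q)) = y := g.injective (by rw [e2, hyq])
        rw [mem_preimage, e3]
        exact hy
      · simp [tr]
  · have e1 := (attractor_closure (h1 i)).2.2
    rw [Measure.map_apply h.cont.measurable (basin_meas g.continuous isClosed_closure)] at e1
    exact e1.trans_le (measure_mono (hb i))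
  · have e1 := Measure.preimage_null_of_map_null h.cont.measurable.aemeasurable h2
    refine measure_mono_null ?_ e1
    intro p hp i hi
    exact hp i (hb i (hi.trans subset_closure))

end Act

end Q85.PA
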