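import Pool.Agent.Q85.PA.H

/-!
# Torus extensions: density of finitely many attractors
-/

set_option linter.unusedSectionVars false

open MeasureTheory Set Filter Topology UnitAddTorus
open Pool.Agent.H728R2.OS Pool.Agent.H728R2.FA

namespace Q85.PA

variable {k : ℕ}

/-- The covering map `ℝ^k × W → 𝕋^k × Y`. -/
def prodCov (k : ℕ) {W Y : Type*} (ρ : W → Y) (z : (Fin k → ℝ) × W) : Torus k × Y :=
  (toTorus z.1, ρ z.2)

/-- `f (x, y) = (A x + φ y, g y)`. -/
def IsTorusExt {Y : Type*} (A : Matrix (Fin k) (Fin k) ℤ) (f : Torus k × Y → Torus k × Y)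
    (g : Y → Y) : Prop :=
  (∀ p, (f p).2 = g p.2) ∧ ∃ φ : Y → Torus k, ∀ x y, (f (x, y)).1 = mulT A x + φ y

/-- `g` can be approximated in the `C^r` topology by `C^r` diffeomorphisms with finitely many
attractors covering almost everything. -/
def Approx {W Y : Type*} [NormedAddCommGroup W] [NormedSpace ℝ W] [TopologicalSpace Y]
    [MeasurableSpace Y] (ρ : W → Y) (ν : Measure Y) (r : ℕ∞) (P : (Y ≃ₜ Y) → Prop)
    (g : Y ≃ₜ Y) : Prop :=
  ∀ m : ℕ, (m : ℕ∞) ≤ r → ∀ ε : ℝ, 0 < ε → ∃ g' : Y ≃ₜ Y, P g' ∧ IsDiffeo ρ r g' ∧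
    CkClose ρ m ε g g' ∧ FiniteAttractors ν g'

theorem circ_small {ε : ℝ} {x : UnitAddCircle} (h : ‖x‖ < ε) :
    ∃ t : ℝ, |t| < ε ∧ (t : UnitAddCircle) = x := by
  obtain ⟨m, hm, hm'⟩ := (QuotientAddGroup.norm_lt_iff (x := x) (r := ε)).1 h
  exact ⟨m, by simpa using hm', hm⟩

theorem ae_small {P : Torus k → Prop} (h : ∀ᵐ θ : Torus k, P θ) {ε : ℝ} (hε : 0 < ε) :
    ∃ t : Fin k → ℝ, ‖t‖ < ε ∧ P (toTorus t) := by
  have hU : IsOpen {θ : Torus k | ∀ i, ‖θ i‖ < ε} := by
    have : {θ : Torus k | ∀ i, ‖θ i‖ < ε} = ⋂ i, {θ | ‖θ i‖ < ε} := by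
      ext θ
      simp
    rw [this]
    exact isOpen_iInter_of_finite fun i => isOpen_lt (by fun_prop) continuous_const
  have hne : {θ : Torus k | ∀ i, ‖θ i‖ < ε}.Nonempty := ⟨0, fun i => by simpa using hε⟩
  have hd : Dense {θ : Torus k | P θ} := Measure.dense_of_ae h
  obtain ⟨θ, hθ, hP⟩ := hd.inter_open_nonempty _ hU hne
  choose t ht ht' using fun i => circ_small (hθ i)
  refine ⟨t, (pi_norm_lt_iff hε).2 fun i => ht i, ?_⟩
  have : toTorus t = θ := funext fun i => ht' i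
  rw [this]
  exact hP

theorem toTorus_add (s t : Fin k → ℝ) : toTorus (s + t) = toTorus s + toTorus t := by
  funext i
  simp [toTorus]

theorem toTorus_sub (s t : Fin k → ℝ) : toTorus (s - t) = toTorus s - toTorus t := by
  funext i
  simp [toTorus]

/-- The translation action on the first factor. -/
@[reducible] def actFst (k : ℕ) (Y : Type*) : AddAction (Torus k) (Torus k × Y) where
  vadd s p := (s + p.1, p.2)
  zero_vadd p := by
    change ((0:Torus k) + p.1, p.2) = p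
    rw [zero_add]
  add_vadd s t p := by
    change (s + t + p.1, p.2) = (s + (t + p.1), p.2)
    rw [add_assoc]

section

variable {W Y : Type*} [NormedAddCommGroup W] [NormedSpace ℝ W] [MetricSpace Y] [CompactSpace Y]
  [MeasurableSpace Y] [BorelSpace Y]

/-- Products: almost every translate of a torus extension has finitely many attractors. -/
theorem ext_ae {A : Matrix (Fin k) (Fin k) ℤ} (hA : A.det ≠ 0)
    (hA' : ∀ m : ℕ, 1 ≤ m → (psum A m).det ≠ 0) (ν : Measure Y) [SFinite ν]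
    (f : (Torus k × Y) ≃ₜ (Torus k × Y)) (g : Y ≃ₜ Y) (hf : IsTorusExt A f g)
    (hg : FiniteAttractors ν g) :
    ∀ᵐ θ : Torus k, FiniteAttractors ((volume : Measure (Torus k)).prod ν)
      (fun p => (θ + (f p).1, (f p).2)) := by
  letI := actFst k Y
  haveI : ContinuousVAdd (Torus k) (Torus k × Y) := ⟨by
    change Continuous fun x : Torus k × (Torus k × Y) => (x.1 + x.2.1, x.2.2)
    fun_prop⟩
  obtain ⟨h1, φ, h2⟩ := hf
  have hπ : IsOrbitMap k (Prod.snd : Torus k × Y → Y) := by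
    refine ⟨continuous_snd, fun y => ⟨(0, y), rfl⟩, fun p q => ⟨fun h => ?_, ?_⟩⟩
    · refine ⟨q.1 - p.1, ?_⟩
      change (q.1 - p.1 + p.1, p.2) = q
      rw [sub_add_cancel, h]
    · rintro ⟨s, rfl⟩
      rfl
  have hmap : ((volume : Measure (Torus k)).prod ν).map Prod.snd = ν := by
    rw [Measure.map_snd_prod, measure_univ, one_smul]
  refine lift_ae (Y := Y) hA hA' ((volume : Measure (Torus k)).prod ν) f ?_ g Prod.snd hπ h1
    (by rw [hmap]; exact hg)
  intro s p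
  obtain ⟨x, y⟩ := p
  change f (s + x, y) = (mulT A s + (f (x, y)).1, (f (x, y)).2)
  refine Prod.ext ?_ ?_
  · simp only [h2, mulT_map_add]
    rw [add_assoc]
  · simp only [h1]

theorem ck_prod {ε : ℝ} {m j : ℕ} (hj : j ≤ m) {D : W → W} (hD : ContDiff ℝ m D) (hε : 0 < ε)
    (h : ∀ z, ‖iteratedFDeriv ℝ j D z‖ < ε) {t : Fin k → ℝ} (ht : ‖t‖ < ε)
    (z : (Fin k → ℝ) × W) :
    ‖iteratedFDeriv ℝ j (fun w : (Fin k → ℝ) × W => ((t, D w.2) : (Fin k → ℝ) × W)) z‖ < ε := by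
  have hD' : ContDiff ℝ j D := hD.of_le (by exact_mod_cast hj)
  have h1 : ContDiff ℝ j (fun w : (Fin k → ℝ) × W => D w.2) := hD'.comp contDiff_snd
  have h2 : ContDiff ℝ j (fun _ : (Fin k → ℝ) × W => t) := contDiff_const
  have e := iteratedFDeriv_prodMk (𝕜 := ℝ) (x := z) h2.contDiffAt h1.contDiffAt (i := j) le_rfl
  rw [e, ContinuousMultilinearMap.opNorm_prod]
  refine max_lt ?_ ?_
  · rcases Nat.eq_zero_or_pos j with h0 | h0
    · subst h0
      rw [norm_iteratedFDeriv_zero]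
      exact ht
    · rw [iteratedFDeriv_const_of_ne (by omega)]
      simpa using hε
  · have h3 : (fun w : (Fin k → ℝ) × W => D w.2) = D ∘ (ContinuousLinearMap.snd ℝ (Fin k → ℝ) W) :=
      rfl
    rw [h3, ContinuousLinearMap.iteratedFDeriv_comp_right _ hD' z le_rfl]
    refine (ContinuousMultilinearMap.norm_compContinuousLinearMap_le _ _).trans_lt ?_
    have h4 : ∏ _i : Fin j, ‖ContinuousLinearMap.snd ℝ (Fin k → ℝ) W‖ ≤ 1 :=
      Finset.prod_le_one (fun _ _ => norm_nonneg _) fun _ _ =>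
        ContinuousLinearMap.norm_snd_le ℝ (Fin k → ℝ) W
    have h5 := h ((ContinuousLinearMap.snd ℝ (Fin k → ℝ) W) z)
    refine lt_of_le_of_lt (mul_le_mul_of_nonneg_left h4 (norm_nonneg _)) ?_
    rw [mul_one]
    exact h5

/-- **Torus extensions.** If the base map is a limit of `C^r` diffeomorphisms with finitely many
attractors, then so is the extension. -/
theorem ext_dense {A : Matrix (Fin k) (Fin k) ℤ} (hA : A.det ≠ 0)
    (hA' : ∀ m : ℕ, 1 ≤ m → (psum A m).det ≠ 0) (ρ : W → Y) (ν : Measure Y) [SFinite ν] (r : ℕ∞)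
    (f : (Torus k × Y) ≃ₜ (Torus k × Y)) (g : Y ≃ₜ Y) (hd : IsDiffeo (prodCov k ρ) r f)
    (hf : IsTorusExt A f g) (P : (Y ≃ₜ Y) → Prop) (hg : Approx ρ ν r P g) :
    Approx (prodCov k ρ) ((volume : Measure (Torus k)).prod ν) r
      (fun f' => ∃ g', P g' ∧ IsTorusExt A f' g') f := by
  intro m hm ε hε
  obtain ⟨g', hP, ⟨⟨G₁, hG₁, lG₁⟩, H₁, hH₁, lH₁⟩, ⟨G, G', hG, hG', lG, lG', hc⟩, hfin⟩ := hg m hm ε hε
  obtain ⟨⟨F, hF, lF⟩, H, hH, lH⟩ := hd
  obtain ⟨h1, φ, h2⟩ := hf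
  have hmr : ((m : ℕ∞) : WithTop ℕ∞) ≤ ((r : ℕ∞) : WithTop ℕ∞) := by exact_mod_cast hm
  -- the extension over `g'`
  let f₁ : (Torus k × Y) ≃ₜ (Torus k × Y) :=
    f.trans ((Homeomorph.refl (Torus k)).prodCongr (g.symm.trans g'))
  have hf₁ : ∀ p, f₁ p = ((f p).1, g' p.2) := by
    intro p
    change ((f p).1, g' (g.symm (f p).2)) = _
    rw [h1, g.symm_apply_apply]
  have hext : IsTorusExt A f₁ g' := ⟨fun p => by rw [hf₁], φ, fun x y => by rw [hf₁]; exact h2 x y⟩
  obtain ⟨t, ht, hfa⟩ := ae_small (ext_ae hA hA' ν f₁ g' hext hfin) hε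
  let f' : (Torus k × Y) ≃ₜ (Torus k × Y) :=
    f₁.trans ((Homeomorph.addLeft (toTorus t)).prodCongr (Homeomorph.refl Y))
  have hf' : ∀ p, f' p = (toTorus t + (f p).1, g' p.2) := by
    intro p
    change (toTorus t + (f₁ p).1, (f₁ p).2) = _
    rw [hf₁]
  have hfs : ∀ q, f'.symm q = f.symm (q.1 - toTorus t, g (g'.symm q.2)) := by
    intro q
    rw [Homeomorph.symm_apply_eq, hf', f.apply_symm_apply]
    have e1 : (f.symm (q.1 - toTorus t, g (g'.symm q.2))).2 = g'.symm q.2 := by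
      apply g.injective
      rw [← h1, f.apply_symm_apply]
    rw [e1, g'.apply_symm_apply]
    exact Prod.ext (by simp) rfl
  refine ⟨f', ⟨g', hP, ⟨fun p => by rw [hf'], fun y => toTorus t + φ y, fun x y => ?_⟩⟩,
    ⟨⟨fun z => ((F z).1 + t, G₁ z.2), ?_, ?_⟩,
      fun z => H (z.1 - t, (F (0, H₁ z.2)).2), ?_, ?_⟩,
    ⟨fun z => ((F z).1, G z.2), fun z => ((F z).1 + t, G' z.2), ?_, ?_, ?_, ?_, ?_⟩, ?_⟩
  · rw [hf']
    simp only [h2]
    abel
  · exact (hF.fst.add contDiff_const).prodMk (hG₁.comp contDiff_snd)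
  · intro z
    have e := lF z
    rw [hf']
    refine Prod.ext ?_ ?_
    · simp only [prodCov]
      rw [toTorus_add, add_comm]
      have : toTorus (F z).1 = (f (prodCov k ρ z)).1 := by rw [← e]; rfl
      rw [this]
      rfl
    · exact lG₁ z.2
  · refine hH.comp (ContDiff.prodMk (contDiff_fst.sub contDiff_const) ?_)
    have : ContDiff ℝ r fun z : (Fin k → ℝ) × W => ((0 : Fin k → ℝ), H₁ z.2) :=
      contDiff_const.prodMk (hH₁.comp contDiff_snd)
    exact (hF.comp this).snd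
  · intro z
    rw [hfs, lH]
    congr 1
    refine Prod.ext ?_ ?_
    · simp only [prodCov]
      rw [toTorus_sub]
    · simp only [prodCov]
      have e := lF (0, H₁ z.2)
      have e2 : ρ (F (0, H₁ z.2)).2 = (f (prodCov k ρ (0, H₁ z.2))).2 := by rw [← e]; rfl
      rw [e2, h1]
      congr 1
      exact lH₁ z.2
  · exact (hF.of_le hmr).fst.prodMk (hG.comp contDiff_snd)
  · exact ((hF.of_le hmr).fst.add contDiff_const).prodMk (hG'.comp contDiff_snd)
  · intro z
    have e := lF z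
    refine Prod.ext ?_ ?_
    · rw [← e]
      rfl
    · rw [h1]
      exact lG z.2
  · intro z
    have e := lF z
    rw [hf']
    refine Prod.ext ?_ ?_
    · simp only [prodCov]
      rw [toTorus_add, add_comm]
      have : toTorus (F z).1 = (f (prodCov k ρ z)).1 := by rw [← e]; rfl
      rw [this]
      rfl
    · exact lG' z.2
  · intro j hj z
    have e : (fun w : (Fin k → ℝ) × W => (((F w).1 + t, G' w.2) : (Fin k → ℝ) × W) -
        ((F w).1, G w.2)) = fun w => (t, (fun v => G' v - G v) w.2) := by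
      funext w
      refine Prod.ext ?_ ?_
      · simp
      · simp
    rw [e]
    exact ck_prod hj (hG'.sub hG) hε (hc j hj) ht z
  · have e : (f' : Torus k × Y → Torus k × Y) = fun p => (toTorus t + (f₁ p).1, (f₁ p).2) := rfl
    rw [e]
    exact hfa

end

end Q85.PA
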