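import Pool.Agent.Q85.PA.I
import Pool.Agent.Results.MP_3a2b62_an.FlagDiffeos
import Pool.Agent.Results.MP_3a2b62_an.LinearFlags

/-!
# The approximation property of flag preserving diffeomorphisms
-/

open MeasureTheory Set Filter Topology
open Pool.Agent.H728R2.OS

namespace Q85.PA

theorem fin_of {d : ℕ} {g : Torus d ≃ₜ Torus d}
    (h : Pool.Agent.H637R2.TD.FinitelyManyAttractors g) :
    Pool.Agent.H728R2.FA.FiniteAttractors (volume : Measure (Torus d)) g := by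
  have e : ∀ y, Pool.Agent.H637R2.TD.omegaLim g y = Pool.Agent.H728R2.FA.omegaLim g y := by
    intro y
    ext q
    change MapClusterPt q atTop _ ↔ ∀ U ∈ 𝓝 q, ∀ N : ℕ, ∃ n : ℕ, N ≤ n ∧ g^[n] y ∈ U
    rw [mapClusterPt_iff_frequently]
    refine forall₂_congr fun U _ => ?_
    rw [frequently_atTop]
  obtain ⟨n, Λ, h1, h2⟩ := h
  refine ⟨n, Λ, fun i => ⟨(h1 i).invariant, (h1 i).transitive, ?_⟩, ?_⟩
  · have := (h1 i).basin_pos
    simp only [Pool.Agent.H637R2.TD.basin, e] at this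
    exact this
  · refine measure_mono_null ?_ h2
    intro p hp hq
    obtain ⟨i, hi⟩ := mem_iUnion.1 hq
    simp only [Pool.Agent.H637R2.TD.basin, e] at hi
    exact hp i hi

theorem ck_self {d : ℕ} {r : ℕ∞} (hr : 1 ≤ r) {g : Torus d ≃ₜ Torus d}
    (h : IsDiffeo toTorus r g) {η : ℝ} (hη : 0 < η) : CkClose toTorus 1 η g g := by
  obtain ⟨⟨F, hF, lF⟩, _⟩ := h
  have hF1 : ContDiff ℝ ((1:ℕ) : WithTop ℕ∞) F := hF.of_le (by exact_mod_cast hr)
  refine ⟨F, F, hF1, hF1, lF, lF, fun j _ z => ?_⟩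
  have : (fun w => F w - F w) = fun _ => (0 : Fin d → ℝ) := by
    funext w
    rw [sub_self]
  rw [this]
  have h0 : iteratedFDeriv ℝ j (fun _ : Fin d → ℝ => (0 : Fin d → ℝ)) z = 0 := by
    rw [iteratedFDeriv_zero_fun]
    rfl
  rw [h0, norm_zero]
  exact hη

/-- Flag preserving diffeomorphisms, for the standard flag or for any flag of linear foliations. -/
theorem approx_flags {d : ℕ} {r : ℕ∞} (hr : 1 ≤ r) {g : Torus d ≃ₜ Torus d}
    (h : Pool.Agent.H637R2.TD.IsFlagDiffeo r g ∨ ∃ V, Pool.Agent.Y318.LF.PreservesFlag r g V) :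
    Approx toTorus (volume : Measure (Torus d)) r (fun _ => True) g := by
  intro m hm ε hε
  rcases h with h | ⟨V, h⟩
  · obtain ⟨g', h1, h2, η, hη, h3⟩ :=
      Pool.Agent.Results.MP_3a2b62_an.FlagDiffeos.result d r hr g h m hm ε hε
    exact ⟨g', trivial, h1.diffeo, h2, fin_of (h3 g' (ck_self hr h1.diffeo hη)).1⟩
  · obtain ⟨g', W, h1, h2, η, hη, h3⟩ :=
      Pool.Agent.Results.MP_3a2b62_an.LinearFlags.result d r hr g V h m hm ε hε
    exact ⟨g', trivial, h1.1, h2, fin_of (h3 g' (ck_self hr h1.1 hη)).1⟩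

end Q85.PA
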