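import Pool.Agent.Q85.PA.F

/-!
# Flows commuting with a torus action: attractors lift for almost every drift
-/

set_option linter.unusedSectionVars false

open MeasureTheory Set Filter Topology UnitAddTorus
open Pool.Agent.H728R2.OS

namespace Q85.PA

variable {k : ℕ}

theorem frecur {Y : Type*} [MetricSpace Y] {Ψ : Flow ℝ Y} {Λ : Set Y}
    (hinv : ∀ t : ℝ, Ψ t '' Λ = Λ) {y : Y} (hy : y ∈ Λ)
    (hd : Λ ⊆ closure ((fun t : ℝ => Ψ t y) '' Ici 0)) :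
    ∃ t : ℕ → ℝ, Tendsto t atTop atTop ∧ (∀ j, 0 ≤ t j) ∧
      Tendsto (fun j => Ψ (t j) y) atTop (𝓝 y) := by
  have h1 : ∀ n : ℕ, ∃ t : ℝ, (n:ℝ) ≤ t ∧ dist (Ψ t y) y < 1 / ((n:ℝ) + 1) := by
    intro n
    have hz : Ψ (-(n:ℝ)) y ∈ Λ := by
      rw [← hinv (-(n:ℝ))]
      exact mem_image_of_mem _ hy
    have hc : Continuous (Ψ (n:ℝ)) := Ψ.continuous_toFun _
    have hzy : Ψ (n:ℝ) (Ψ (-(n:ℝ)) y) = y := by
      rw [← Ψ.map_add]
      simp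
    have hU : (Ψ (n:ℝ)) ⁻¹' Metric.ball y (1 / ((n:ℝ) + 1)) ∈ 𝓝 (Ψ (-(n:ℝ)) y) :=
      hc.continuousAt.preimage_mem_nhds (by
        rw [hzy]
        exact Metric.ball_mem_nhds _ (by positivity))
    obtain ⟨w, hw, ⟨s, hs, rfl⟩⟩ := mem_closure_iff_nhds.1 (hd hz) _ hU
    refine ⟨n + s, by simpa using hs, ?_⟩
    rw [Ψ.map_add]
    exact hw
  choose t ht ht' using h1
  refine ⟨t, tendsto_atTop_mono ht tendsto_natCast_atTop_atTop,
    fun j => (Nat.cast_nonneg j).trans (ht j), ?_⟩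
  rw [tendsto_iff_dist_tendsto_zero]
  exact squeeze_zero (fun _ => dist_nonneg) (fun n => (ht' n).le) tendsto_one_div_add_atTop_nhds_zero_nat

section Act

variable {M Y : Type*} [MetricSpace M] [CompactSpace M] [MetricSpace Y]
  [AddAction (Torus k) M] [ContinuousVAdd (Torus k) M]

/-- The flow `Φ t p` followed by the translation by `t θ`. -/
def drift (Φ : Flow ℝ M) (hΦ : ∀ (t : ℝ) (s : Torus k) (p : M), Φ t (s +ᵥ p) = s +ᵥ Φ t p)
    (θ : Fin k → ℝ) : Flow ℝ M where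
  toFun t p := toTorus (t • θ) +ᵥ Φ t p
  cont' := by
    have h1 : Continuous fun x : ℝ × M => toTorus (x.1 • θ) :=
      toTorus_cont.comp (continuous_fst.smul continuous_const)
    have h2 : Continuous fun x : ℝ × M => Φ x.1 x.2 := Φ.cont'
    exact h1.vadd h2
  map_add' s t p := by
    change toTorus ((s + t) • θ) +ᵥ Φ (s + t) p =
      toTorus (s • θ) +ᵥ Φ s (toTorus (t • θ) +ᵥ Φ t p)
    rw [hΦ, vadd_vadd, ← toTorus_add, ← add_smul, Φ.map_add]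
  map_zero' p := by
    change toTorus ((0:ℝ) • θ) +ᵥ Φ 0 p = p
    rw [zero_smul, Φ.map_zero_apply]
    have : toTorus (0 : Fin k → ℝ) = 0 := by
      funext i
      simp [toTorus]
    rw [this, zero_vadd]

variable {Φ : Flow ℝ M} (hΦ : ∀ (t : ℝ) (s : Torus k) (p : M), Φ t (s +ᵥ p) = s +ᵥ Φ t p)
  {Ψ : Flow ℝ Y} {π : M → Y} (h : IsOrbitMap k π) (hπ : ∀ (t : ℝ) (p : M), π (Φ t p) = Ψ t (π p))

include h hπ

theorem drift_pi (θ : Fin k → ℝ) (t : ℝ) (p : M) : π (drift Φ hΦ θ t p) = Ψ t (π p) := by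
  rw [← hπ]
  exact h.pi_vadd _ _

theorem fae_closure (p₀ : M) {t : ℕ → ℝ} (ht : Tendsto t atTop atTop) (ht0 : ∀ j, 0 ≤ t j)
    (hlim : Tendsto (fun j => Ψ (t j) (π p₀)) atTop (𝓝 (π p₀))) :
    ∀ᵐ θ : Fin k → ℝ, ∀ s : Torus k,
      s +ᵥ p₀ ∈ closure ((fun t : ℝ => drift Φ hΦ θ t p₀) '' Ici 0) := by
  have hlim2 : Tendsto (fun j => π (Φ (t j) p₀)) atTop (𝓝 (π p₀)) := by
    simp_rw [hπ]
    exact hlim
  obtain ⟨c, hc⟩ := near_fibre h p₀ hlim2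
  filter_upwards [ae_dense_line c ht] with θ hθ s
  rw [Metric.mem_closure_iff]
  intro ε hε
  have huc : UniformContinuous fun x : Torus k × M => x.1 +ᵥ x.2 :=
    CompactSpace.uniformContinuous_of_continuous continuous_vadd
  obtain ⟨δ, hδ, hδ'⟩ := Metric.uniformContinuous_iff.1 huc (ε / 2) (by positivity)
  have hcc : Continuous fun u : Torus k => dist (u +ᵥ p₀) (s +ᵥ p₀) :=
    (continuous_id.vadd continuous_const).dist continuous_const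
  have hU : IsOpen {u : Torus k | dist (u +ᵥ p₀) (s +ᵥ p₀) < ε / 2} :=
    isOpen_lt hcc continuous_const
  have hne : {u : Torus k | dist (u +ᵥ p₀) (s +ᵥ p₀) < ε / 2}.Nonempty :=
    ⟨s, by
      rw [mem_ofPred_eq, dist_self]
      positivity⟩
  obtain ⟨J, hJ⟩ := Metric.tendsto_atTop.1 hc δ hδ
  obtain ⟨j, hj, hm⟩ := hθ _ hU hne J
  refine ⟨_, ⟨t j, ht0 j, rfl⟩, ?_⟩
  change dist (s +ᵥ p₀) (toTorus (t j • θ) +ᵥ Φ (t j) p₀) < ε
  rw [mem_ofPred_eq] at hm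
  have h3 := hJ j hj
  rw [Real.dist_eq, sub_zero, abs_of_nonneg dist_nonneg] at h3
  have h4 : dist (toTorus (t j • θ) +ᵥ Φ (t j) p₀)
      (toTorus (t j • θ) +ᵥ (c j +ᵥ p₀)) < ε / 2 :=
    hδ' (a := (toTorus (t j • θ), Φ (t j) p₀)) (b := (toTorus (t j • θ), c j +ᵥ p₀)) (by
      rw [Prod.dist_eq, dist_self]
      exact max_lt hδ h3)
  rw [vadd_vadd, add_comm _ (c j)] at h4
  calc dist (s +ᵥ p₀) (toTorus (t j • θ) +ᵥ Φ (t j) p₀)
      ≤ dist (s +ᵥ p₀) ((c j + toTorus (t j • θ)) +ᵥ p₀) +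
        dist ((c j + toTorus (t j • θ)) +ᵥ p₀) (toTorus (t j • θ) +ᵥ Φ (t j) p₀) :=
        dist_triangle _ _ _
    _ < ε / 2 + ε / 2 := by
        refine add_lt_add ?_ ?_
        · rw [dist_comm]
          exact hm
        · rw [dist_comm]
          exact h4
    _ = ε := by ring

theorem fae_trans {Λ : Set Y} (hinv : ∀ t : ℝ, Ψ t '' Λ = Λ) {y : Y} (hy : y ∈ Λ)
    (hd : Λ ⊆ closure ((fun t : ℝ => Ψ t y) '' Ici 0)) :
    ∀ᵐ θ : Fin k → ℝ, ∃ p ∈ π ⁻¹' Λ,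
      π ⁻¹' Λ ⊆ closure ((fun t : ℝ => drift Φ hΦ θ t p) '' Ici 0) := by
  obtain ⟨p₀, rfl⟩ := h.surj y
  obtain ⟨t, ht, ht0, hlim⟩ := frecur hinv hy hd
  filter_upwards [fae_closure hΦ h hπ p₀ ht ht0 hlim] with θ hθ
  refine ⟨p₀, hy, ?_⟩
  have h1 : π ⁻¹' ((fun t : ℝ => Ψ t (π p₀)) '' Ici 0) ⊆
      closure ((fun t : ℝ => drift Φ hΦ θ t p₀) '' Ici 0) := by
    rintro q ⟨m, hm, hm'⟩
    have hm2 : π (drift Φ hΦ θ m p₀) = π q := by
      rw [drift_pi hΦ h hπ]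
      exact hm'
    obtain ⟨s, hs⟩ := (h.fib _ _).1 hm2
    have e : q = drift Φ hΦ θ m (s +ᵥ p₀) := by
      rw [← hs]
      change s +ᵥ (toTorus (m • θ) +ᵥ Φ m p₀) = toTorus (m • θ) +ᵥ Φ m (s +ᵥ p₀)
      rw [hΦ, vadd_vadd, vadd_vadd, add_comm]
    rw [e]
    have h2 := image_closure_subset_closure_image
      (s := (fun t : ℝ => drift Φ hΦ θ t p₀) '' Ici 0) ((drift Φ hΦ θ).continuous_toFun m)
    have h3 := h2 (mem_image_of_mem _ (hθ s))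
    refine closure_mono ?_ h3
    rintro _ ⟨_, ⟨u, hu, rfl⟩, rfl⟩
    refine ⟨m + u, mem_Ici.2 (add_nonneg (mem_Ici.1 hm) (mem_Ici.1 hu)), ?_⟩
    exact (drift Φ hΦ θ).map_add m u p₀
  calc π ⁻¹' Λ ⊆ π ⁻¹' closure ((fun t : ℝ => Ψ t (π p₀)) '' Ici 0) := preimage_mono hd
    _ ⊆ closure (π ⁻¹' ((fun t : ℝ => Ψ t (π p₀)) '' Ici 0)) :=
        h.isOpenMap.preimage_closure_subset_closure_preimage
    _ ⊆ closure ((fun t : ℝ => drift Φ hΦ θ t p₀) '' Ici 0) := closure_minimal h1 isClosed_closure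

end Act

end Q85.PA
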