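import Pool.Agent.Q85.PA.K

/-!
# Finitely many attractors for flows with almost every drift
-/

set_option linter.unusedSectionVars false

open MeasureTheory Set Filter Topology UnitAddTorus
open Pool.Agent.H728R2.OS

namespace Q85.PA

variable {k : ℕ}

theorem fbasin_iff {Y : Type*} [MetricSpace Y] [CompactSpace Y] {Ψ : Flow ℝ Y} {K : Set Y}
    (hK : IsClosed K) (y : Y) :
    omegaFlow Ψ y ⊆ K ↔ ∀ m : ℕ, ∃ N : ℕ, ∀ t : ℝ, (N:ℝ) ≤ t →
      Ψ t y ∈ Metric.cthickening (1 / ((m:ℝ) + 1)) K := by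
  constructor
  · intro h m
    by_contra hcon
    push Not at hcon
    choose t ht ht' using hcon
    have hcomp : IsCompact (Metric.thickening (1 / ((m:ℝ) + 1)) K)ᶜ :=
      (Metric.isOpen_thickening.isClosed_compl).isCompact
    obtain ⟨q, hq, φ, hφ, hlim⟩ := hcomp.tendsto_subseq (x := fun n => Ψ (t n) y) fun n hn =>
      ht' n (Metric.thickening_subset_cthickening _ _ hn)
    have hqo : q ∈ omegaFlow Ψ y := by
      intro U hU T
      obtain ⟨N, hN⟩ := eventually_atTop.1 (hlim.eventually hU)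
      obtain ⟨n, hn⟩ := exists_nat_ge T
      refine ⟨t (φ (max N n)), ?_, hN _ (le_max_left _ _)⟩
      have h1 : max N n ≤ φ (max N n) := hφ.le_apply
      have h2 : (n:ℝ) ≤ (φ (max N n) : ℝ) := by exact_mod_cast (le_max_right N n).trans h1
      exact hn.trans (h2.trans (ht _))
    exact hq (Metric.self_subset_thickening (by positivity) K (h hqo))
  · intro h q hq
    rw [← hK.closure_eq, Metric.closure_eq_iInter_cthickening]
    simp only [mem_iInter]
    intro δ hδ
    obtain ⟨m, hm⟩ := exists_nat_one_div_lt hδ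
    obtain ⟨N, hN⟩ := h m
    by_contra hcon
    obtain ⟨t, ht, hm2⟩ := hq _ (Metric.isClosed_cthickening.isOpen_compl.mem_nhds hcon) N
    exact hm2 (Metric.cthickening_mono hm.le K (hN t ht))

theorem fbasin_meas {Y : Type*} [MetricSpace Y] [CompactSpace Y] [MeasurableSpace Y] [BorelSpace Y]
    {Ψ : Flow ℝ Y} {K : Set Y} (hK : IsClosed K) :
    MeasurableSet {y | omegaFlow Ψ y ⊆ K} := by
  have : {y | omegaFlow Ψ y ⊆ K} = ⋂ m : ℕ, ⋃ N : ℕ, ⋂ t : ℝ, ⋂ _ : (N:ℝ) ≤ t,
      (fun y => Ψ t y) ⁻¹' Metric.cthickening (1 / ((m:ℝ) + 1)) K := by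
    ext y
    simp only [mem_ofPred_eq, mem_iInter, mem_iUnion, mem_preimage]
    exact fbasin_iff hK y
  rw [this]
  refine MeasurableSet.iInter fun m => MeasurableSet.iUnion fun N => IsClosed.measurableSet ?_
  exact isClosed_iInter fun t => isClosed_iInter fun _ =>
    Metric.isClosed_cthickening.preimage (Ψ.continuous_toFun t)

/-- The closure of an attractor is an attractor. -/
theorem fattractor_closure {Y : Type*} [TopologicalSpace Y] [MeasurableSpace Y] {μ : Measure Y}
    {Ψ : Flow ℝ Y} {Λ : Set Y} (h : IsFlowAttractor μ Ψ Λ) :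
    IsFlowAttractor μ Ψ (closure Λ) := by
  obtain ⟨h1, ⟨x, hx, h2⟩, h3⟩ := h
  refine ⟨fun t => ?_, ⟨x, subset_closure hx, closure_minimal h2 isClosed_closure⟩,
    h3.trans_le (measure_mono fun p hp => hp.trans subset_closure)⟩
  have : Ψ t '' closure Λ = closure (Ψ t '' Λ) := (Ψ.toHomeomorph t).image_closure Λ
  rw [this, h1]

section Act

variable {M Y : Type*} [MetricSpace M] [CompactSpace M] [MeasurableSpace M] [BorelSpace M]
  [MetricSpace Y] [CompactSpace Y] [MeasurableSpace Y] [BorelSpace Y]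
  [AddAction (Torus k) M] [ContinuousVAdd (Torus k) M]

/-- **Flows commuting with a torus action.** If the flow induced on the orbit space has finitely
many attractors covering almost everything, then so has the flow with almost every drift. -/
theorem flift_ae (μ : Measure M) {Φ : Flow ℝ M}
    (hΦ : ∀ (t : ℝ) (s : Torus k) (p : M), Φ t (s +ᵥ p) = s +ᵥ Φ t p)
    {Ψ : Flow ℝ Y} {π : M → Y} (h : IsOrbitMap k π)
    (hπ : ∀ (t : ℝ) (p : M), π (Φ t p) = Ψ t (π p))
    (hg : FiniteFlowAttractors (μ.map π) Ψ) :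
    ∀ᵐ θ : Fin k → ℝ, FiniteFlowAttractors μ (drift Φ hΦ θ) := by
  obtain ⟨l, Λ, h1, h2⟩ := hg
  have h3 : ∀ᵐ θ : Fin k → ℝ, ∀ i : Fin l, ∃ p ∈ π ⁻¹' closure (Λ i),
      π ⁻¹' closure (Λ i) ⊆ closure ((fun t : ℝ => drift Φ hΦ θ t p) '' Ici 0) := by
    rw [ae_all_iff]
    intro i
    obtain ⟨e1, ⟨y, hy, e2⟩, _⟩ := fattractor_closure (h1 i)
    exact fae_trans hΦ h hπ e1 hy e2
  filter_upwards [h3] with θ hθ
  have hpi := drift_pi hΦ h hπ θ
  have hb : ∀ i, π ⁻¹' {y | omegaFlow Ψ y ⊆ closure (Λ i)} ⊆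
      {p | omegaFlow (drift Φ hΦ θ) p ⊆ π ⁻¹' closure (Λ i)} := by
    intro i p hp q hq
    refine hp ?_
    intro U hU T
    obtain ⟨t, ht, hm⟩ := hq (π ⁻¹' U) (h.cont.continuousAt.preimage_mem_nhds hU) T
    exact ⟨t, ht, by rw [← hpi]; exact hm⟩
  refine ⟨l, fun i => π ⁻¹' closure (Λ i), fun i => ⟨fun t => ?_, hθ i, ?_⟩, ?_⟩
  · have e1 := (fattractor_closure (h1 i)).1
    have hsub : ∀ u : ℝ, drift Φ hΦ θ u '' (π ⁻¹' closure (Λ i)) ⊆ π ⁻¹' closure (Λ i) := by
      rintro u _ ⟨p, hp, rfl⟩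
      rw [mem_preimage, hpi, ← e1 u]
      exact mem_image_of_mem _ hp
    apply Subset.antisymm (hsub t)
    intro q hq
    refine ⟨drift Φ hΦ θ (-t) q, hsub (-t) (mem_image_of_mem _ hq), ?_⟩
    rw [← (drift Φ hΦ θ).map_add]
    simp
  · have e1 := (fattractor_closure (h1 i)).2.2
    rw [Measure.map_apply h.cont.measurable (fbasin_meas isClosed_closure)] at e1
    exact e1.trans_le (measure_mono (hb i))
  · have e1 := Measure.preimage_null_of_map_null h.cont.measurable.aemeasurable h2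
    refine measure_mono_null ?_ e1
    intro p hp i hi
    exact hp i (hb i (hi.trans subset_closure))

end Act

end Q85.PA
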